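import Mathlib
set_option autoImplicit false

namespace Pool.Agent.Helper407.NC

/-- The non-commuting graph of `G`: vertices are the non-central elements, two of them are joined
when they do not commute. -/
def ncGraph (G : Type) [Group G] : SimpleGraph {g : G // g ∉ Subgroup.center G} :=
  SimpleGraph.fromRel (fun x y => x.1 * y.1 ≠ y.1 * x.1)

theorem card_eqs_adj {G : Type} [Group G] (x y : {g : G // g ∉ Subgroup.center G}) :
    (ncGraph G).Adj x y ↔ x.1 * y.1 ≠ y.1 * x.1 := by
  unfold ncGraph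
  rw [SimpleGraph.fromRel_adj]
  constructor
  · rintro ⟨-, h | h⟩
    · exact h
    · exact h.symm
  · intro h
    refine ⟨?_, Or.inl h⟩
    rintro rfl
    exact h rfl

theorem card_eqs_1 {G : Type} [Group G] [Finite G] :
    Nat.card G = Nat.card (Subgroup.center G) + Nat.card {g : G // g ∉ Subgroup.center G} := by
  classical
  rw [← Nat.card_congr (Equiv.sumCompl (fun g : G => g ∈ Subgroup.center G)), Nat.card_sum]

theorem card_eqs_2 {G : Type} [Group G] [Finite G] (g : {g : G // g ∉ Subgroup.center G}) :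
    Nat.card (Subgroup.centralizer {g.1}) = Nat.card (Subgroup.center G) +
      Nat.card {y : {g : G // g ∉ Subgroup.center G} // y.1 * g.1 = g.1 * y.1} := by
  classical
  rw [← Nat.card_congr (Equiv.sumCompl
    (fun y : Subgroup.centralizer {g.1} => y.1 ∈ Subgroup.center G)), Nat.card_sum]
  congr 1
  · refine Nat.card_congr ⟨fun y => ⟨y.1.1, y.2⟩, fun z => ⟨⟨z.1, ?_⟩, z.2⟩, fun y => rfl,
      fun z => rfl⟩
    rw [Subgroup.mem_centralizer_singleton_iff]
    exact ((Subgroup.mem_center_iff.mp z.2) g.1).symm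
  · refine Nat.card_congr ⟨fun y => ⟨⟨y.1.1, y.2⟩,
      Subgroup.mem_centralizer_singleton_iff.mp y.1.2⟩,
      fun z => ⟨⟨z.1.1, Subgroup.mem_centralizer_singleton_iff.mpr z.2⟩, z.1.2⟩, fun y => rfl,
      fun z => rfl⟩

/-- numbers coming from an isomorphism of non-commuting graphs. -/
theorem card_eqs {G H : Type} [Group G] [Group H] [Finite G] [Finite H]
    (e : ncGraph G ≃g ncGraph H) :
    Nat.card G + Nat.card (Subgroup.center H) = Nat.card H + Nat.card (Subgroup.center G) ∧
    ∀ g : {g : G // g ∉ Subgroup.center G},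
      Nat.card (Subgroup.centralizer {g.1}) + Nat.card (Subgroup.center H) =
        Nat.card (Subgroup.centralizer {(e g).1}) + Nat.card (Subgroup.center G) := by
  constructor
  · rw [card_eqs_1 (G := G), card_eqs_1 (G := H), Nat.card_congr e.toEquiv]
    ring
  · intro g
    rw [card_eqs_2 g, card_eqs_2 (e g)]
    have h : Nat.card {y : {g : G // g ∉ Subgroup.center G} // y.1 * g.1 = g.1 * y.1} =
        Nat.card {y : {g : H // g ∉ Subgroup.center H} // y.1 * (e g).1 = (e g).1 * y.1} := by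
      refine Nat.card_congr (e.toEquiv.subtypeEquiv fun y => ?_)
      have h1 := e.map_adj_iff (v := y) (w := g)
      rw [card_eqs_adj, card_eqs_adj] at h1
      exact (not_iff_not.mp h1).symm
    rw [h]
    ring

end Pool.Agent.Helper407.NC

namespace Pool.Agent.Helper407.NC

/-- if the conjugates of `K` cover the finite group then `K = ⊤` -/
theorem not_dvd_index_center_cover {G : Type} [Group G] [Finite G] (K : Subgroup G)
    (h : ∀ g : G, ∃ x : G, x * g * x⁻¹ ∈ K) : K = ⊤ := by
  classical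
  haveI : Fintype G := Fintype.ofFinite G
  haveI : Fintype (G ⧸ K) := Fintype.ofFinite _
  haveI : ∀ g : G, Fintype (MulAction.fixedBy (G ⧸ K) g) := fun g => Fintype.ofFinite _
  haveI : Fintype (MulAction.orbitRel.Quotient G (G ⧸ K)) := Fintype.ofFinite _
  have hB := MulAction.sum_card_fixedBy_eq_card_orbits_mul_card_group G (G ⧸ K)
  have hsub : Subsingleton (MulAction.orbitRel.Quotient G (G ⧸ K)) :=
    MulAction.pretransitive_iff_subsingleton_quotient G (G ⧸ K) |>.1 inferInstance
  have h1 : Fintype.card (MulAction.orbitRel.Quotient G (G ⧸ K)) ≤ 1 :=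
    Fintype.card_le_one_iff_subsingleton.2 hsub
  have hpos : ∀ g : G, 1 ≤ Fintype.card (MulAction.fixedBy (G ⧸ K) g) := by
    intro g
    obtain ⟨x, hx⟩ := h g
    apply Fintype.card_pos_iff.2
    refine ⟨⟨((x⁻¹ : G) : G ⧸ K), ?_⟩⟩
    rw [MulAction.mem_fixedBy]
    show ((g * x⁻¹ : G) : G ⧸ K) = ((x⁻¹ : G) : G ⧸ K)
    symm
    rw [QuotientGroup.eq, inv_inv, ← mul_assoc]
    exact hx
  have hle : ∑ g : G, Fintype.card (MulAction.fixedBy (G ⧸ K) g) ≤ Fintype.card G := by
    rw [hB]
    calc _ ≤ 1 * Fintype.card G := Nat.mul_le_mul_right _ h1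
      _ = _ := one_mul _
  have h2 : Fintype.card (MulAction.fixedBy (G ⧸ K) (1 : G)) ≤ 1 := by
    by_contra hcon
    push Not at hcon
    have h3 : ∑ g : G, 1 < ∑ g : G, Fintype.card (MulAction.fixedBy (G ⧸ K) g) :=
      Finset.sum_lt_sum (fun g _ => hpos g) ⟨1, Finset.mem_univ _, hcon⟩
    rw [Finset.sum_const, Finset.card_univ, smul_eq_mul, mul_one] at h3
    omega
  have h4 : Subsingleton (MulAction.fixedBy (G ⧸ K) (1 : G)) :=
    Fintype.card_le_one_iff_subsingleton.1 h2
  have h5 : ∀ a b : G ⧸ K, a = b := by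
    intro a b
    have ha : a ∈ MulAction.fixedBy (G ⧸ K) (1 : G) := by
      rw [MulAction.mem_fixedBy, one_smul]
    have hb : b ∈ MulAction.fixedBy (G ⧸ K) (1 : G) := by
      rw [MulAction.mem_fixedBy, one_smul]
    exact congrArg Subtype.val (h4.elim ⟨a, ha⟩ ⟨b, hb⟩)
  rw [eq_top_iff]
  intro g _
  have h6 := h5 ((1 : G) : G ⧸ K) ((g : G) : G ⧸ K)
  rw [QuotientGroup.eq] at h6
  simpa using h6

/-- if `p` divides no conjugacy class size of a finite group then it does not divide
`|G : Z(G)|`. -/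
theorem not_dvd_index_center {G : Type} [Group G] [Finite G] (p : ℕ) (hp : p.Prime)
    (h : ∀ g : G, ¬ p ∣ (Subgroup.centralizer {g}).index) :
    ¬ p ∣ (Subgroup.center G).index := by
  haveI : Fact p.Prime := ⟨hp⟩
  obtain ⟨S⟩ : Nonempty (Sylow p G) := inferInstance
  have hcov : ∀ g : G, ∃ x : G, x * g * x⁻¹ ∈ Subgroup.centralizer ((S : Subgroup G) : Set G) := by
    intro g
    have h1 := S.isPGroup'.nonempty_fixed_point_of_prime_not_dvd_card
      (G ⧸ (Subgroup.centralizer {g})) (h g)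
    obtain ⟨a, ha⟩ := h1
    induction a using QuotientGroup.induction_on with
    | H x =>
      refine ⟨x, ?_⟩
      rw [Subgroup.mem_centralizer_iff]
      intro s hs
      have h2 := ha ⟨s, hs⟩
      have h3 : ((s * x : G) : G ⧸ (Subgroup.centralizer {g})) = ((x : G) : G ⧸ _) := h2
      have h4 := QuotientGroup.eq.1 h3.symm
      rw [Subgroup.mem_centralizer_iff] at h4
      have h5 := h4 g rfl
      have h6 : g * (x⁻¹ * (s * x)) = (x⁻¹ * (s * x)) * g := h5
      calc s * (x * g * x⁻¹) = x * ((x⁻¹ * (s * x)) * g) * x⁻¹ := by group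
        _ = x * (g * (x⁻¹ * (s * x))) * x⁻¹ := by rw [h6]
        _ = x * g * x⁻¹ * s := by group
  have htop := not_dvd_index_center_cover _ hcov
  have hle : (S : Subgroup G) ≤ Subgroup.center G := by
    intro s hs
    rw [Subgroup.mem_center_iff]
    intro g
    have hg : g ∈ Subgroup.centralizer ((S : Subgroup G) : Set G) := by rw [htop]; trivial
    rw [Subgroup.mem_centralizer_iff] at hg
    exact (hg s hs).symm
  intro hdvd
  exact S.not_dvd_index (hdvd.trans (Subgroup.index_dvd_of_le hle))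

end Pool.Agent.Helper407.NC

namespace Pool.Agent.Helper407.NC

/-- Auxiliary statement. -/
theorem coreB (p s S z b μ ν : ℕ) (hp : p.Prime) (hb : 0 < b) (hzb : b < z)
    (h1 : z * μ + b = b * p ^ s + z) (h2 : z * ν + b = b * p ^ S + z)
    (hd : μ ∣ ν) (hs : 1 ≤ s) (hsS : s < S) (hS : S ≤ 2 * s) (hpμ : ¬ p ∣ μ) : False := by
  have hz : 0 < z := lt_trans hb hzb
  have hp2 : 2 ≤ p := hp.two_le
  have hps : 1 ≤ p ^ s := Nat.one_le_pow _ _ (by omega)
  have hpS : 1 ≤ p ^ S := Nat.one_le_pow _ _ (by omega)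
  have hμ1 : μ ≠ 0 := by
    intro h0
    rw [h0] at hpμ
    exact hpμ (dvd_zero _)
  have hν1 : ν ≠ 0 := by
    intro h0
    rw [h0] at h2
    have : b * 1 ≤ b * p ^ S := Nat.mul_le_mul_left _ hpS
    omega
  obtain ⟨m, rfl⟩ := Nat.exists_eq_succ_of_ne_zero hμ1
  obtain ⟨n, rfl⟩ := Nat.exists_eq_succ_of_ne_zero hν1
  have e1 : z * m + b = b * p ^ s := by
    have : z * (m + 1) = z * m + z := by ring
    have h1' : z * (m + 1) + b = b * p ^ s + z := h1
    omega
  have e2 : z * n + b = b * p ^ S := by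
    have : z * (n + 1) = z * n + z := by ring
    have h2' : z * (n + 1) + b = b * p ^ S + z := h2
    omega
  have e1' : b * (p ^ s - 1) = z * m := by
    rw [Nat.mul_sub, mul_one]; omega
  have e2' : b * (p ^ S - 1) = z * n := by
    rw [Nat.mul_sub, mul_one]; omega
  obtain ⟨g, hg⟩ : ∃ g, g = Nat.gcd s S := ⟨_, rfl⟩
  have hg1 : 1 ≤ g := by
    rw [hg]; exact Nat.gcd_pos_of_pos_left _ hs
  have hgs : g ∣ s := hg ▸ Nat.gcd_dvd_left _ _
  have hgS : g ∣ S := hg ▸ Nat.gcd_dvd_right _ _
  have hgd : g ∣ S - s := Nat.dvd_sub hgS hgs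
  have hgcd : Nat.gcd (p ^ s - 1) (p ^ S - 1) = p ^ g - 1 := by
    rw [hg]; exact Nat.pow_sub_one_gcd_pow_sub_one p s S
  have hQ : 1 ≤ p ^ g - 1 := by
    have : p ^ 1 ≤ p ^ g := Nat.pow_le_pow_right (by omega) hg1
    rw [pow_one] at this
    omega
  obtain ⟨q, hq⟩ : ∃ q, q = p ^ g - 1 := ⟨_, rfl⟩
  rw [← hq] at hgcd hQ
  have hzw : z ∣ b * q := by
    rw [← hgcd, ← Nat.gcd_mul_left]
    exact Nat.dvd_gcd ⟨m, e1'⟩ ⟨n, e2'⟩
  obtain ⟨w, hw⟩ := hzw
  have hqs : q ∣ p ^ s - 1 := hgcd ▸ Nat.gcd_dvd_left _ _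
  have hqd : q ∣ p ^ (S - s) - 1 := by
    have h3 := Nat.pow_sub_one_gcd_pow_sub_one p g (S - s)
    rw [Nat.gcd_eq_left hgd, ← hq] at h3
    exact h3 ▸ Nat.gcd_dvd_right _ _
  obtain ⟨A, hA⟩ := hqs
  obtain ⟨k, hk⟩ := hqd
  have hm : m = w * A := by
    have : z * m = z * (w * A) := by
      calc z * m = b * (p ^ s - 1) := e1'.symm
        _ = b * q * A := by rw [hA]; ring
        _ = z * (w * A) := by rw [hw]; ring
    exact Nat.eq_of_mul_eq_mul_left hz this
  have hSs : p ^ S = p ^ s * p ^ (S - s) := by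
    rw [← pow_add]; congr 1; omega
  have hpd : 1 ≤ p ^ (S - s) := Nat.one_le_pow _ _ (by omega)
  have hkk : p ^ (S - s) = q * k + 1 := by omega
  have hn : n = m + w * p ^ s * k := by
    have : z * n = z * (m + w * p ^ s * k) := by
      have h5 : z * n + b = z * (m + w * p ^ s * k) + b := by
        rw [e2, hSs, hkk]
        calc b * (p ^ s * (q * k + 1)) = b * q * (p ^ s * k) + b * p ^ s := by ring
          _ = z * w * (p ^ s * k) + (z * m + b) := by rw [hw, e1]
          _ = z * (m + w * p ^ s * k) + b := by ring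
      omega
    exact Nat.eq_of_mul_eq_mul_left hz this
  have hd2 : (m + 1) ∣ w * p ^ s * k := by
    have h6 : n + 1 = w * p ^ s * k + (m + 1) := by omega
    have h7 : (m + 1) ∣ w * p ^ s * k + (m + 1) := by
      rw [← h6]; exact hd
    exact (Nat.dvd_add_left (dvd_refl _)).1 h7
  have hcw : Nat.Coprime (m + 1) w := by
    rw [hm]
    exact (Nat.coprime_mul_right_add_left 1 w A |>.2 (Nat.coprime_one_left w)) |> fun h => by
      simpa [Nat.add_comm] using h
  have hcp : Nat.Coprime (m + 1) (p ^ s) :=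
    Nat.Coprime.pow_right _ ((Nat.Prime.coprime_iff_not_dvd hp).2 hpμ).symm
  have hdk : (m + 1) ∣ k := (hcw.mul_right hcp).dvd_of_dvd_mul_left hd2
  have hw0 : 0 < w := by
    rcases Nat.eq_zero_or_pos w with h | h
    · rw [h, mul_zero] at hw
      have := Nat.mul_pos hb hQ
      omega
    · exact h
  have hAk : k ≤ A := by
    have h8 : p ^ (S - s) ≤ p ^ s := Nat.pow_le_pow_right (by omega) (by omega)
    have h9 : q * k ≤ q * A := by
      rw [← hA, ← hk]; omega
    exact Nat.le_of_mul_le_mul_left h9 hQ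
  have hk0 : 0 < k := by
    rcases Nat.eq_zero_or_pos k with h | h
    · rw [h, mul_zero] at hk
      have : p ^ 1 ≤ p ^ (S - s) := Nat.pow_le_pow_right (by omega) (by omega)
      rw [pow_one] at this
      omega
    · exact h
  have hle := Nat.le_of_dvd hk0 hdk
  have : A ≤ w * A := Nat.le_mul_of_pos_left _ hw0
  omega

end Pool.Agent.Helper407.NC

namespace Pool.Agent.Helper407.NC

theorem coreC_cop (p x k : ℕ) (hp : p.Prime) (h : p ∣ x + 1) : Nat.Coprime (p ^ k) x := by
  apply Nat.Coprime.pow_left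
  rw [hp.coprime_iff_not_dvd]
  intro h1
  have h2 : p ∣ 1 := (Nat.dvd_add_right h1).1 h
  exact hp.one_lt.ne' (Nat.dvd_one.1 h2)

/-- Auxiliary statement. -/
theorem coreC (p s t z b μ ι s₀ μ₀ : ℕ) (hp : p.Prime) (hb : 0 < b) (hzb : b < z)
    (hs₀ : 1 ≤ s₀) (h0 : z * μ₀ + b = b * p ^ s₀ + z) (hpμ₀ : p ∣ μ₀)
    (hs : 1 ≤ s) (ht : 1 ≤ t)
    (h1 : z * μ + b = b * p ^ s + z) (h2 : z * (μ * ι) + b = b * p ^ (s + t) + z)
    (hpι : p ∣ ι) : False := by
  have hz : 0 < z := by omega
  have hpos : ∀ k, 0 < p ^ k := fun k => pow_pos hp.pos k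
  have hbk : ∀ k, b ≤ b * p ^ k := fun k => Nat.le_mul_of_pos_right b (hpos k)
  have hμ₀ : μ₀ ≠ 0 := by
    rintro rfl
    have := hbk s₀
    omega
  have hμ : μ ≠ 0 := by
    rintro rfl
    have := hbk s
    omega
  have hι : ι ≠ 0 := by
    rintro rfl
    have := hbk (s + t)
    rw [mul_zero, mul_zero] at h2
    omega
  obtain ⟨m0, rfl⟩ := Nat.exists_eq_succ_of_ne_zero hμ₀
  obtain ⟨i, rfl⟩ := Nat.exists_eq_succ_of_ne_zero hι
  obtain ⟨m, hm⟩ := Nat.exists_eq_succ_of_ne_zero hμ
  obtain ⟨q0, hq0⟩ := Nat.exists_eq_succ_of_ne_zero (hpos s₀).ne'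
  obtain ⟨q, hq⟩ := Nat.exists_eq_succ_of_ne_zero (hpos s).ne'
  obtain ⟨r, hr⟩ := Nat.exists_eq_succ_of_ne_zero (hpos t).ne'
  simp only [Nat.succ_eq_add_one] at *
  have e0 : z * m0 = b * q0 := by
    rw [hq0] at h0
    nlinarith
  have e2 : z * μ * i = b * p ^ s * r := by
    rw [pow_add, hr] at h2
    nlinarith
  have e3 : q0 * μ * i = m0 * p ^ s * r := by
    apply Nat.eq_of_mul_eq_mul_left hb
    calc b * (q0 * μ * i) = (b * q0) * μ * i := by ring
      _ = m0 * (z * μ * i) := by rw [← e0]; ring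
      _ = b * (m0 * p ^ s * r) := by rw [e2]; ring
  have hdvd : p ^ s ∣ q0 * μ * i := by
    rw [e3]
    exact ⟨m0 * r, by ring⟩
  have c1 : Nat.Coprime (p ^ s) i := coreC_cop p i s hp hpι
  have c2 : Nat.Coprime (p ^ s) q0 := by
    apply coreC_cop p q0 s hp
    rw [← hq0]
    exact dvd_pow_self p (by omega)
  have hd1 : p ^ s ∣ q0 * μ := c1.dvd_of_dvd_mul_right hdvd
  have hd2 : p ^ s ∣ μ := c2.dvd_of_dvd_mul_left hd1
  have hle : p ^ s ≤ μ := Nat.le_of_dvd (by omega) hd2
  have e1 : z * m = b * q := by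
    rw [hq, hm] at h1
    nlinarith
  have hqm : q ≤ m := by omega
  have hq1 : 1 ≤ q := by
    have h3 : 2 ≤ p ^ s := by
      calc 2 ≤ p := hp.two_le
        _ = p ^ 1 := (pow_one p).symm
        _ ≤ p ^ s := Nat.pow_le_pow_right hp.pos hs
    omega
  have h4 : b * q < z * q := Nat.mul_lt_mul_of_pos_right hzb hq1
  have h5 : z * q ≤ z * m := Nat.mul_le_mul_left z hqm
  omega

end Pool.Agent.Helper407.NC

namespace Pool.Agent.Helper407.NC

/-- in a nonabelian finite group `H` with `H / Z(H)` a `p`-group there is a noncentral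
element whose class has at most `#{z ∈ Z(H) : z ^ p = 1}` elements. -/
theorem exists_small_class {H : Type} [Group H] [Finite H] (p S : ℕ) (hp : p.Prime)
    (hna : ∃ a b : H, a * b ≠ b * a) (hS : (Subgroup.center H).index = p ^ S) :
    ∃ x : H, x ∉ Subgroup.center H ∧ (Subgroup.centralizer {x}).index ≤
      Nat.card {z : H // z ∈ Subgroup.center H ∧ z ^ p = 1} := by
  haveI : Fact p.Prime := ⟨hp⟩
  set Z := Subgroup.center H with hZ
  have hcard : Nat.card (H ⧸ Z) = p ^ S := hS
  have hpg : IsPGroup p (H ⧸ Z) := IsPGroup.of_card hcard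
  haveI : Nontrivial (H ⧸ Z) := by
    obtain ⟨a, b, hab⟩ := hna
    refine ⟨⟨(a : H ⧸ Z), 1, ?_⟩⟩
    intro h
    have ha : a ∈ Z := (QuotientGroup.eq_one_iff a).1 h
    exact hab ((Subgroup.mem_center_iff.1 ha b).symm)
  haveI hnt : Nontrivial (Subgroup.center (H ⧸ Z)) := hpg.center_nontrivial
  have hpc : IsPGroup p (Subgroup.center (H ⧸ Z)) := hpg.to_subgroup _
  have hdvd : p ∣ Nat.card (Subgroup.center (H ⧸ Z)) := by
    rcases hpc.card_eq_or_dvd with h | h
    · exfalso
      have := Finite.one_lt_card (α := Subgroup.center (H ⧸ Z))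
      omega
    · exact h
  obtain ⟨xb, hxb⟩ := exists_prime_orderOf_dvd_card' p hdvd
  have hxb1 : xb ≠ 1 := by
    intro h
    rw [h, orderOf_one] at hxb
    exact hp.one_lt.ne hxb
  have hxbp : xb ^ p = 1 := by rw [← hxb]; exact pow_orderOf_eq_one xb
  obtain ⟨x, hx⟩ := QuotientGroup.mk_surjective (xb : H ⧸ Z)
  have hx1 : x ∉ Z := by
    intro h
    have h2 : (x : H ⧸ Z) = 1 := (QuotientGroup.eq_one_iff x).2 h
    apply hxb1
    apply Subtype.ext
    rw [← hx]
    exact h2
  have hxp : x ^ p ∈ Z := by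
    rw [← QuotientGroup.eq_one_iff]
    have : ((x ^ p : H) : H ⧸ Z) = (x : H ⧸ Z) ^ p := rfl
    rw [this]
    have h3 : ((xb : H ⧸ Z)) ^ p = 1 := by
      have := congrArg Subtype.val hxbp
      simpa using this
    rw [← h3, ← hx]
  have hcomm : ∀ h : H, h * x * h⁻¹ * x⁻¹ ∈ Z := by
    intro h
    rw [← QuotientGroup.eq_one_iff]
    have : ((h * x * h⁻¹ * x⁻¹ : H) : H ⧸ Z) = (h : H ⧸ Z) * (x : H ⧸ Z) * (h : H ⧸ Z)⁻¹ * (x : H ⧸ Z)⁻¹ := rfl
    rw [this]
    have hc : (h : H ⧸ Z) * (x : H ⧸ Z) = (x : H ⧸ Z) * (h : H ⧸ Z) := by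
      have := Subgroup.mem_center_iff.1 xb.2 (h : H ⧸ Z)
      rw [← hx] at this
      exact this
    rw [hc]
    group
  have hpow : ∀ h : H, (h * x * h⁻¹ * x⁻¹) ^ p = 1 := by
    intro h
    set c := h * x * h⁻¹ * x⁻¹ with hc
    have hcx : c * x = h * x * h⁻¹ := by rw [hc]; group
    have hcz : ∀ g, g * c = c * g := Subgroup.mem_center_iff.1 (hcomm h)
    have h1 : (c * x) ^ p = c ^ p * x ^ p := (show Commute c x from (hcz x).symm).mul_pow p
    have h2 : (h * x * h⁻¹) ^ p = h * x ^ p * h⁻¹ := conj_pow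
    have h3 : h * x ^ p = x ^ p * h := Subgroup.mem_center_iff.1 hxp h
    have h4 : c ^ p * x ^ p = x ^ p := by
      rw [← h1, hcx, h2, h3, mul_assoc, mul_inv_cancel, mul_one]
    exact mul_eq_right.1 h4
  refine ⟨x, hx1, ?_⟩
  have hidx : (Subgroup.centralizer {x}).index = Nat.card (H ⧸ Subgroup.centralizer ({x} : Set H)) := rfl
  rw [hidx]
  refine Nat.card_le_card_of_injective
    (fun q : H ⧸ Subgroup.centralizer ({x} : Set H) =>
      (⟨q.out * x * q.out⁻¹ * x⁻¹, hcomm _, hpow _⟩ : {z : H // z ∈ Z ∧ z ^ p = 1})) ?_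
  intro q q' hqq
  have h1 : q.out * x * q.out⁻¹ * x⁻¹ = q'.out * x * q'.out⁻¹ * x⁻¹ := congrArg Subtype.val hqq
  have h2 : q.out * x * q.out⁻¹ = q'.out * x * q'.out⁻¹ := mul_right_cancel h1
  rw [← QuotientGroup.out_eq' q, ← QuotientGroup.out_eq' q']
  rw [QuotientGroup.eq]
  rw [Subgroup.mem_centralizer_singleton_iff]
  have h3 : q'.out * x = q.out * x * q.out⁻¹ * q'.out := by
    rw [h2]; group
  calc (q.out⁻¹ * q'.out) * x = q.out⁻¹ * (q'.out * x) := by group
    _ = q.out⁻¹ * (q.out * x * q.out⁻¹ * q'.out) := by rw [h3]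
    _ = x * (q.out⁻¹ * q'.out) := by group

end Pool.Agent.Helper407.NC

namespace Pool.Agent.Helper407.NC

/-- Auxiliary statement. -/
theorem exponents {H : Type} [Group H] [Finite H] (p S : ℕ) (hp : p.Prime)
    (hS : (Subgroup.center H).index = p ^ S) (x : H) (hx : x ∉ Subgroup.center H) :
    ∃ s t : ℕ, 1 ≤ s ∧ 1 ≤ t ∧ s + t = S ∧
      Nat.card (Subgroup.centralizer {x}) = Nat.card (Subgroup.center H) * p ^ s ∧
      (Subgroup.centralizer {x}).index = p ^ t := by
  have hle : Subgroup.center H ≤ Subgroup.centralizer ({x} : Set H) :=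
    Subgroup.center_le_centralizer _
  have hmul : (Subgroup.center H).relIndex (Subgroup.centralizer {x}) *
      (Subgroup.centralizer ({x} : Set H)).index = (Subgroup.center H).index :=
    Subgroup.relIndex_mul_index hle
  rw [hS] at hmul
  obtain ⟨t, ht, htt⟩ := (Nat.dvd_prime_pow hp).1 (Dvd.intro_left _ hmul)
  obtain ⟨s, hs, hss⟩ := (Nat.dvd_prime_pow hp).1 (Dvd.intro _ hmul)
  refine ⟨s, t, ?_, ?_, ?_, ?_, htt⟩
  · rcases Nat.eq_zero_or_pos s with h0 | h0
    · exfalso
      rw [h0, pow_zero] at hss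
      have h1 : Subgroup.centralizer ({x} : Set H) ≤ Subgroup.center H :=
        Subgroup.relIndex_eq_one.1 hss
      apply hx
      apply h1
      rw [Subgroup.mem_centralizer_iff]
      intro y hy
      rw [Set.mem_singleton_iff] at hy
      rw [hy]
    · exact h0
  · rcases Nat.eq_zero_or_pos t with h0 | h0
    · exfalso
      rw [h0, pow_zero] at htt
      have h1 : Subgroup.centralizer ({x} : Set H) = ⊤ := Subgroup.index_eq_one.1 htt
      apply hx
      rw [Subgroup.mem_center_iff]
      intro g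
      have hg : g ∈ Subgroup.centralizer ({x} : Set H) := by rw [h1]; trivial
      rw [Subgroup.mem_centralizer_iff] at hg
      exact (hg x (Set.mem_singleton x)).symm
    · exact h0
  · rw [hss, htt, ← pow_add] at hmul
    exact Nat.pow_right_injective hp.two_le hmul
  · rw [← hss]
    have h2 := Subgroup.card_mul_index
      ((Subgroup.center H).subgroupOf (Subgroup.centralizer {x}))
    have h3 : Nat.card ((Subgroup.center H).subgroupOf (Subgroup.centralizer {x})) =
        Nat.card (Subgroup.center H) :=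
      Nat.card_congr (Subgroup.subgroupOfEquivOfLe hle).toEquiv
    rw [h3] at h2
    exact h2.symm

end Pool.Agent.Helper407.NC

namespace Pool.Agent.Helper407.NC

/-- Auxiliary statement. -/
theorem nilpotent_of_index {G : Type} [Group G] [Finite G] (p S : ℕ) (hp : p.Prime)
    (hS : (Subgroup.center G).index = p ^ S) : Group.IsNilpotent G := by
  have : Fact p.Prime := ⟨hp⟩
  have hcard : Nat.card (G ⧸ Subgroup.center G) = p ^ S := by
    rw [← Subgroup.index_eq_card]; exact hS
  have h1 : IsPGroup p (G ⧸ Subgroup.center G) := IsPGroup.of_card hcard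
  have h2 : Group.IsNilpotent (G ⧸ Subgroup.center G) := h1.isNilpotent
  exact Group.of_quotient_center_nilpotent h2

end Pool.Agent.Helper407.NC

namespace Pool.Agent.Helper407.NC

/-- Auxiliary statement. -/
theorem coreA (z b m h K cg ng : ℕ) (hz : 0 < z) (hzb : z < b) (hcg : cg + b = m + z)
    (hng : ng + b = h + z) (hd : cg ∣ ng) (hh : h = m * K) (hK : 1 < K) (hbm : b * K ≤ m) :
    False := by
  obtain ⟨c, rfl⟩ : ∃ c, b = z + c := ⟨b - z, by omega⟩
  have hc : 0 < c := by omega
  obtain ⟨K', rfl⟩ : ∃ K', K = K' + 1 := ⟨K - 1, by omega⟩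
  have hK' : 0 < K' := by omega
  have hm : m = cg + c := by omega
  have hn : ng + c = m * (K' + 1) := by omega
  have hn2 : ng = cg * (K' + 1) + c * K' := by
    rw [hm] at hn
    have : ng + c = cg * (K' + 1) + c * K' + c := by rw [hn]; ring
    omega
  have h1 : cg ∣ c * K' := by
    have h2 : cg ∣ cg * (K' + 1) + c * K' := hn2 ▸ hd
    exact (Nat.dvd_add_right (Dvd.intro _ rfl)).mp h2
  have h3 : cg ≤ c * K' := Nat.le_of_dvd (Nat.mul_pos hc hK') h1
  have h4 : (z + c) * (K' + 1) ≤ c * K' + c := by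
    calc (z + c) * (K' + 1) ≤ m := hbm
      _ = cg + c := hm
      _ ≤ c * K' + c := by omega
  have h5 : c * K' + c < (z + c) * (K' + 1) := by nlinarith
  omega

end Pool.Agent.Helper407.NC

namespace Pool.Agent.Helper407.NC

/-- If `|G| < |H|` then every noncentral class of `H` is large. -/
theorem small_side {G H : Type} [Group G] [Group H] [Finite G] [Finite H]
    (e : ncGraph G ≃g ncGraph H) (hlt : Nat.card G < Nat.card H) (x : H)
    (hx : x ∉ Subgroup.center H) :
    (Subgroup.center H).index < (Subgroup.centralizer {x}).index ^ 2 := by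
  by_contra hcon
  push Not at hcon
  obtain ⟨h1, h2⟩ := card_eqs e
  obtain ⟨g, hg⟩ := e.surjective ⟨x, hx⟩
  have h3 := h2 g
  rw [hg] at h3
  simp only at h3
  set z := Nat.card (Subgroup.center G) with hz
  set b := Nat.card (Subgroup.center H) with hb
  have hzpos : 0 < z := Nat.card_pos
  have hbpos : 0 < b := Nat.card_pos
  have hH1 : b * (Subgroup.center H).index = Nat.card H := Subgroup.card_mul_index _
  have hH2 : Nat.card (Subgroup.centralizer {x}) * (Subgroup.centralizer {x}).index = Nat.card H :=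
    Subgroup.card_mul_index _
  have hzb : z < b := by omega
  have hK : 1 < (Subgroup.centralizer {x}).index := by
    have hne : (Subgroup.centralizer {x}).index ≠ 0 := Subgroup.index_ne_zero_of_finite
    have hne1 : (Subgroup.centralizer {x}).index ≠ 1 := by
      intro h
      rw [Subgroup.index_eq_one] at h
      apply hx
      rw [Subgroup.mem_center_iff]
      intro g'
      have : g' ∈ Subgroup.centralizer {x} := by rw [h]; trivial
      rw [Subgroup.mem_centralizer_iff] at this
      exact (this x rfl).symm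
    omega
  refine coreA z b (Nat.card (Subgroup.centralizer {x})) (Nat.card H)
    (Subgroup.centralizer {x}).index (Nat.card (Subgroup.centralizer {g.1})) (Nat.card G)
    hzpos hzb h3 h1 (Subgroup.card_subgroup_dvd_card _) hH2.symm hK ?_
  have h4 : Nat.card (Subgroup.centralizer {x}) * (Subgroup.centralizer {x}).index ≥
      b * (Subgroup.centralizer {x}).index ^ 2 := by
    rw [hH2, ← hH1]
    exact Nat.mul_le_mul_left _ hcon
  have h5 : b * (Subgroup.centralizer {x}).index * (Subgroup.centralizer {x}).index ≤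
      Nat.card (Subgroup.centralizer {x}) * (Subgroup.centralizer {x}).index := by
    nlinarith [h4]
  exact Nat.le_of_mul_le_mul_right h5 (by omega)

/-- The other side. -/
theorem large_side {G H : Type} [Group G] [Group H] [Finite G] [Finite H]
    (e : ncGraph G ≃g ncGraph H) (hlt : Nat.card H < Nat.card G) (p S : ℕ) (hp : p.Prime)
    (hS : (Subgroup.center H).index = p ^ S) (x : H)
    (hx : x ∉ Subgroup.center H) :
    (Subgroup.center H).index < (Subgroup.centralizer {x}).index ^ 2 := by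
  by_contra hcon
  push Not at hcon
  obtain ⟨h1, h2⟩ := card_eqs e
  set z := Nat.card (Subgroup.center G) with hz
  set b := Nat.card (Subgroup.center H) with hb
  have hzpos : 0 < z := Nat.card_pos
  have hbpos : 0 < b := Nat.card_pos
  have hzb : b < z := by omega
  have hH1 : b * p ^ S = Nat.card H := by rw [← hS]; exact Subgroup.card_mul_index _
  have hG1 : z * (Subgroup.center G).index = Nat.card G := Subgroup.card_mul_index _
  have key : ∀ g : {g : G // g ∉ Subgroup.center G}, ∃ s t μ : ℕ, 1 ≤ s ∧ 1 ≤ t ∧ s + t = S ∧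
      (Subgroup.centralizer {(e g).1}).index = p ^ t ∧
      z * μ + b = b * p ^ s + z ∧
      z * (μ * (Subgroup.centralizer {g.1}).index) + b = b * p ^ (s + t) + z ∧
      μ * (Subgroup.centralizer {g.1}).index = (Subgroup.center G).index := by
    intro g
    obtain ⟨s, t, hs, ht, hst, hc, hi⟩ := exponents p S hp hS (e g).1 (e g).2
    have h3 := h2 g
    rw [hc] at h3
    have hle : Subgroup.center G ≤ Subgroup.centralizer {g.1} := Subgroup.center_le_centralizer _
    obtain ⟨μ, hμ⟩ := Subgroup.card_dvd_of_le hle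
    rw [hμ] at h3
    have h4 : Nat.card (Subgroup.centralizer {g.1}) * (Subgroup.centralizer {g.1}).index =
      Nat.card G := Subgroup.card_mul_index _
    have h5 : μ * (Subgroup.centralizer {g.1}).index = (Subgroup.center G).index := by
      have : z * (μ * (Subgroup.centralizer {g.1}).index) = z * (Subgroup.center G).index := by
        rw [hG1, ← h4, hμ, mul_assoc]
      exact Nat.eq_of_mul_eq_mul_left hzpos this
    refine ⟨s, t, μ, hs, ht, hst, hi, h3, ?_, h5⟩
    rw [h5, hG1, hst, hH1]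
    exact h1
  have hnu : z * (Subgroup.center G).index + b = b * p ^ S + z := by
    rw [hG1, hH1]; exact h1
  obtain ⟨g, hg⟩ := e.surjective ⟨x, hx⟩
  obtain ⟨s, t, μ, hs, ht, hst, hi, h3, h4, h5⟩ := key g
  rw [hg] at hi
  simp only at hi
  rw [hi, hS, ← pow_mul] at hcon
  have hts : t * 2 ≤ S := (Nat.pow_le_pow_iff_right hp.one_lt).1 hcon
  by_cases hpμ : p ∣ μ
  · refine not_dvd_index_center p hp ?_ (hpμ.trans ⟨_, h5.symm⟩)
    intro g' hd
    by_cases hg' : g' ∈ Subgroup.center G
    · have : Subgroup.centralizer {g'} = ⊤ := by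
        rw [eq_top_iff]
        intro y _
        rw [Subgroup.mem_centralizer_iff]
        intro w hw
        rw [Set.mem_singleton_iff] at hw
        subst hw
        exact (Subgroup.mem_center_iff.1 hg' y).symm
      rw [this, Subgroup.index_top] at hd
      exact hp.one_lt.ne' (Nat.dvd_one.1 hd)
    · obtain ⟨s', t', μ', hs', ht', hst', hi', h3', h4', h5'⟩ := key ⟨g', hg'⟩
      exact coreC p s' t' z b μ' _ s μ hp hbpos hzb hs h3 hpμ hs' ht' h3' h4' hd
  · exact coreB p s S z b μ _ hp hbpos hzb h3 hnu ⟨_, h5.symm⟩ hs (by omega) (by omega) hpμ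

/-- The numbers agree when some class is small. -/
theorem card_eq_of {G H : Type} [Group G] [Group H] [Finite G] [Finite H]
    (e : ncGraph G ≃g ncGraph H) (p S : ℕ) (hp : p.Prime)
    (hS : (Subgroup.center H).index = p ^ S) (x : H)
    (hx : x ∉ Subgroup.center H)
    (hc : (Subgroup.centralizer {x}).index ^ 2 ≤ (Subgroup.center H).index) :
    Nat.card G = Nat.card H ∧ Group.IsNilpotent G := by
  have hcard : Nat.card G = Nat.card H := by
    rcases lt_trichotomy (Nat.card G) (Nat.card H) with h | h | h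
    · exact absurd hc (not_le.2 (small_side e h x hx))
    · exact h
    · exact absurd hc (not_le.2 (large_side e h p S hp hS x hx))
  refine ⟨hcard, ?_⟩
  obtain ⟨h1, -⟩ := card_eqs e
  have hz : Nat.card (Subgroup.center G) = Nat.card (Subgroup.center H) := by omega
  have hH1 : Nat.card (Subgroup.center H) * (Subgroup.center H).index = Nat.card H :=
    Subgroup.card_mul_index _
  have hG1 : Nat.card (Subgroup.center G) * (Subgroup.center G).index = Nat.card G :=
    Subgroup.card_mul_index _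
  have hzpos : 0 < Nat.card (Subgroup.center H) := Nat.card_pos
  apply nilpotent_of_index p S hp
  rw [← hS]
  rw [hz, hcard, ← hH1] at hG1
  exact Nat.eq_of_mul_eq_mul_left hzpos hG1

end Pool.Agent.Helper407.NC
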