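import Mathlib
import Pool.Agent.Helper407.NC.Core
set_option autoImplicit false

namespace Pool.Agent.Helper407.NC

/-- a subgroup between `Z(G)` and `G` with `q ∣ |C : Z(G)|` has a noncentral `q`-element -/
theorem exists_qelt {G : Type} [Group G] [Finite G] (q : ℕ) (hq : q.Prime) (C : Subgroup G)
    (hZ : Subgroup.center G ≤ C) (h : q ∣ (Subgroup.center G).relIndex C) :
    ∃ y ∈ C, y ∉ Subgroup.center G ∧ ∃ k : ℕ, orderOf y = q ^ k := by
  classical
  haveI : Fact q.Prime := ⟨hq⟩
  by_contra hcon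
  push Not at hcon
  obtain ⟨T⟩ : Nonempty (Sylow q C) := inferInstance
  have hTZ : (T : Subgroup C) ≤ (Subgroup.center G).subgroupOf C := by
    intro y hy
    rw [Subgroup.mem_subgroupOf]
    by_contra hy'
    obtain ⟨k, hk⟩ := (IsPGroup.iff_orderOf.mp T.isPGroup') ⟨y, hy⟩
    have h1 : orderOf (y : G) = q ^ k := by
      rw [Subgroup.orderOf_coe, ← hk]
      exact (Subgroup.orderOf_mk (H := (T : Subgroup C)) y hy).symm
    exact hcon y y.2 hy' k h1
  have h2 : ((Subgroup.center G).subgroupOf C).index ∣ (T : Subgroup C).index :=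
    Subgroup.index_dvd_of_le hTZ
  have h3 : ¬ q ∣ (T : Subgroup C).index := T.not_dvd_index
  exact h3 (dvd_trans h h2)

end Pool.Agent.Helper407.NC

namespace Pool.Agent.Helper407.NC

theorem nc565_pow {G : Type} [Group G] (x y : G) (hxy : x * y = y * x)
    (hcop : (orderOf x).Coprime (orderOf y)) : ∃ m : ℕ, (x * y) ^ m = x := by
  obtain ⟨m, hm1, hm2⟩ := Nat.chineseRemainder hcop 1 0
  refine ⟨m, ?_⟩
  have hc : Commute x y := hxy
  rw [hc.mul_pow]
  have h1 : x ^ m = x := by
    have := (pow_eq_pow_iff_modEq (x := x)).mpr hm1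
    rw [this, pow_one]
  have h2 : y ^ m = 1 := by
    have := (pow_eq_pow_iff_modEq (x := y)).mpr hm2
    rw [this, pow_zero]
  rw [h1, h2, mul_one]

theorem nc565_le {G : Type} [Group G] (x y : G) (hxy : x * y = y * x)
    (hcop : (orderOf x).Coprime (orderOf y)) :
    Subgroup.centralizer {x * y} ≤ Subgroup.centralizer {x} := by
  obtain ⟨m, hm⟩ := nc565_pow x y hxy hcop
  intro g hg
  rw [Subgroup.mem_centralizer_singleton_iff] at hg ⊢
  have h : Commute g (x * y) := hg
  have h2 : Commute g ((x * y) ^ m) := h.pow_right m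
  rw [hm] at h2
  exact h2

/-- Auxiliary statement. -/
theorem cent_le_of_coprime {G : Type} [Group G] [Finite G]
    (hc : ∀ x y : G, x ∉ Subgroup.center G → y ∉ Subgroup.center G →
      Nat.card (Subgroup.centralizer {x}) = Nat.card (Subgroup.centralizer {y}))
    (x y : G) (hx : x ∉ Subgroup.center G) (hxy : x * y = y * x)
    (hcop : (orderOf x).Coprime (orderOf y)) :
    Subgroup.centralizer {x} ≤ Subgroup.centralizer {y} := by
  have h1 : Subgroup.centralizer {x * y} ≤ Subgroup.centralizer {x} := nc565_le x y hxy hcop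
  have h2 : Subgroup.centralizer {x * y} ≤ Subgroup.centralizer {y} := by
    rw [hxy]
    exact nc565_le y x hxy.symm hcop.symm
  have hn : x * y ∉ Subgroup.center G := by
    intro hz
    apply hx
    rw [Subgroup.mem_center_iff] at hz ⊢
    intro g
    have hg : g ∈ Subgroup.centralizer {x * y} := by
      rw [Subgroup.mem_centralizer_singleton_iff]
      exact hz g
    have := h1 hg
    rw [Subgroup.mem_centralizer_singleton_iff] at this
    exact this
  have h3 := hc _ _ hn hx
  have h4 : Subgroup.centralizer {x * y} = Subgroup.centralizer {x} :=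
    Subgroup.eq_of_le_of_card_ge h1 h3.ge
  rw [← h4]
  exact h2

end Pool.Agent.Helper407.NC

namespace Pool.Agent.Helper407.NC

theorem exists_parts_aux {G : Type} [Group G] [Finite G] (a : G) (q : ℕ) (hq : q.Prime) :
    ∃ u ∈ Subgroup.zpowers a, ∃ v ∈ Subgroup.zpowers a, a = u * v ∧ (∃ k : ℕ, orderOf u = q ^ k) ∧
      ¬ q ∣ orderOf v := by
  have hn : 0 < orderOf a := orderOf_pos a
  obtain ⟨k, m, hm, hnm⟩ := Nat.exists_eq_pow_mul_and_not_dvd hn.ne' q hq.ne_one
  have hcop : Nat.Coprime (q ^ k) m :=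
    Nat.Coprime.pow_left k ((Nat.Prime.coprime_iff_not_dvd hq).2 hm)
  have hbez : IsCoprime ((q ^ k : ℕ) : ℤ) (m : ℤ) := Nat.isCoprime_iff_coprime.2 hcop
  obtain ⟨x, y, hxy⟩ := hbez
  refine ⟨a ^ (y * (m : ℤ)), Subgroup.zpow_mem_zpowers a _, a ^ (x * ((q ^ k : ℕ) : ℤ)),
    Subgroup.zpow_mem_zpowers a _, ?_, ?_, ?_⟩
  · rw [← zpow_add, show y * (m : ℤ) + x * ((q ^ k : ℕ) : ℤ) = 1 by rw [← hxy]; ring, zpow_one]
  · have h1 : (a ^ (y * (m : ℤ))) ^ (q ^ k) = 1 := by
      rw [← zpow_natCast, ← zpow_mul,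
        show y * (m : ℤ) * ((q ^ k : ℕ) : ℤ) = ((orderOf a : ℕ) : ℤ) * y by
          rw [hnm]; push_cast; ring,
        zpow_mul, zpow_natCast, pow_orderOf_eq_one, one_zpow]
    obtain ⟨j, -, hj⟩ := (Nat.dvd_prime_pow hq).1 (orderOf_dvd_of_pow_eq_one h1)
    exact ⟨j, hj⟩
  · have h1 : (a ^ (x * ((q ^ k : ℕ) : ℤ))) ^ m = 1 := by
      rw [← zpow_natCast, ← zpow_mul,
        show x * ((q ^ k : ℕ) : ℤ) * (m : ℤ) = ((orderOf a : ℕ) : ℤ) * x by
          rw [hnm]; push_cast; ring,
        zpow_mul, zpow_natCast, pow_orderOf_eq_one, one_zpow]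
    intro h
    exact hm (h.trans (orderOf_dvd_of_pow_eq_one h1))

/-- noncentral primary component -/
theorem exists_primary {G : Type} [Group G] [Finite G] (g : G) (hg : g ∉ Subgroup.center G) :
    ∃ q k : ℕ, q.Prime ∧ ∃ x ∈ Subgroup.zpowers g, x ∉ Subgroup.center G ∧
      orderOf x = q ^ k := by
  induction hN : orderOf g using Nat.strong_induction_on generalizing g with
  | _ N ih =>
    have hg1 : orderOf g ≠ 1 := by
      intro h
      rw [orderOf_eq_one_iff] at h
      exact hg (h ▸ Subgroup.one_mem _)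
    obtain ⟨q, hq, hqd⟩ := Nat.exists_prime_and_dvd hg1
    obtain ⟨u, hu, v, hv, huv, ⟨k, hk⟩, hqv⟩ := exists_parts_aux g q hq
    by_cases huc : u ∈ Subgroup.center G
    · have hvc : v ∉ Subgroup.center G := fun h => hg (by rw [huv]; exact mul_mem huc h)
      have hdvd : orderOf v ∣ orderOf g := orderOf_dvd_of_mem_zpowers hv
      have hne : orderOf v ≠ orderOf g := fun h => hqv (h ▸ hqd)
      have hlt : orderOf v < orderOf g :=
        lt_of_le_of_ne (Nat.le_of_dvd (orderOf_pos g) hdvd) hne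
      obtain ⟨q', k', hq', x, hx, hxc, hxo⟩ := ih (orderOf v) (hN ▸ hlt) v hvc rfl
      exact ⟨q', k', hq', x, (Subgroup.zpowers_le.2 hv) hx, hxc, hxo⟩
    · exact ⟨q, k, hq, u, hu, huc, hk⟩

/-- decomposition into a `q`-part and a `q'`-part -/
theorem exists_parts {G : Type} [Group G] [Finite G] (a : G) (q : ℕ) (hq : q.Prime) :
    ∃ u ∈ Subgroup.zpowers a, ∃ v ∈ Subgroup.zpowers a, a = u * v ∧ (∃ k : ℕ, orderOf u = q ^ k) ∧
      ¬ q ∣ orderOf v :=
  exists_parts_aux a q hq

end Pool.Agent.Helper407.NC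

namespace Pool.Agent.Helper407.NC

theorem mem_cs {G : Type} [Group G] {x y : G} : y ∈ Subgroup.centralizer {x} ↔ x * y = y * x := by
  rw [Subgroup.mem_centralizer_iff]
  constructor
  · intro h
    exact h x rfl
  · rintro h z rfl
    exact h

theorem card_rel {G : Type} [Group G] [Finite G] (C : Subgroup G) (hZ : Subgroup.center G ≤ C) :
    Nat.card (Subgroup.center G) * (Subgroup.center G).relIndex C = Nat.card C := by
  have h1 := Subgroup.card_mul_index ((Subgroup.center G).subgroupOf C)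
  have h2 : Nat.card ((Subgroup.center G).subgroupOf C) = Nat.card (Subgroup.center G) :=
    Nat.card_congr (Subgroup.subgroupOfEquivOfLe hZ).toEquiv
  rw [h2] at h1
  exact h1

/-- every prime dividing `|G : Z|` divides `|C(g) : Z|` -/
theorem dvd_relIndex {G : Type} [Group G] [Finite G]
    (hc : ∀ x y : G, x ∉ Subgroup.center G → y ∉ Subgroup.center G →
      Nat.card (Subgroup.centralizer {x}) = Nat.card (Subgroup.centralizer {y}))
    (q : ℕ) (hq : q.Prime) (h : q ∣ (Subgroup.center G).index) (g : G)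
    (hg : g ∉ Subgroup.center G) :
    q ∣ (Subgroup.center G).relIndex (Subgroup.centralizer {g}) := by
  obtain ⟨x, -, hxZ, k, hk⟩ := exists_qelt q hq (⊤ : Subgroup G) le_top
    (by rwa [Subgroup.relIndex_top_right])
  have hle : ∀ z : G, Subgroup.center G ≤ Subgroup.centralizer {z} := by
    intro z w hw
    rw [mem_cs]
    exact Subgroup.mem_center_iff.1 hw z
  have e1 := card_rel (Subgroup.centralizer {x}) (hle x)
  have e2 := card_rel (Subgroup.centralizer {g}) (hle g)
  have e3 : (Subgroup.center G).relIndex (Subgroup.centralizer {g}) =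
      (Subgroup.center G).relIndex (Subgroup.centralizer {x}) := by
    have hpos : 0 < Nat.card (Subgroup.center G) := Nat.card_pos
    apply Nat.eq_of_mul_eq_mul_left hpos
    rw [e1, e2]
    exact hc g x hg hxZ
  rw [e3]
  have hnorm : ((Subgroup.center G).subgroupOf (Subgroup.centralizer {x})).Normal := inferInstance
  have hxC : x ∈ Subgroup.centralizer {x} := mem_cs.2 rfl
  set X : Subgroup.centralizer {x} := ⟨x, hxC⟩ with hX
  have o1 : orderOf (QuotientGroup.mk' ((Subgroup.center G).subgroupOf (Subgroup.centralizer {x})) X) ∣ q ^ k := by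
    have h1 := orderOf_map_dvd (QuotientGroup.mk' ((Subgroup.center G).subgroupOf (Subgroup.centralizer {x}))) X
    have h2 : orderOf X = orderOf x := by
      rw [← orderOf_injective (Subgroup.centralizer {x}).subtype Subtype.val_injective X]
      rfl
    rw [h2, hk] at h1
    exact h1
  obtain ⟨j, hj, hjo⟩ := (Nat.dvd_prime_pow hq).1 o1
  have hj0 : j ≠ 0 := by
    intro h0
    rw [h0, pow_zero, orderOf_eq_one_iff] at hjo
    have h3 : X ∈ (Subgroup.center G).subgroupOf (Subgroup.centralizer {x}) :=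
      (QuotientGroup.eq_one_iff X).1 hjo
    rw [Subgroup.mem_subgroupOf] at h3
    exact hxZ h3
  have o2 : orderOf (QuotientGroup.mk' ((Subgroup.center G).subgroupOf (Subgroup.centralizer {x})) X) ∣
      Nat.card (Subgroup.centralizer {x} ⧸ (Subgroup.center G).subgroupOf (Subgroup.centralizer {x})) :=
    orderOf_dvd_natCard _
  rw [hjo] at o2
  exact (dvd_pow_self q hj0).trans o2

/-- with two primes all noncentral centralizers are abelian -/
theorem cent_comm {G : Type} [Group G] [Finite G]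
    (hc : ∀ x y : G, x ∉ Subgroup.center G → y ∉ Subgroup.center G →
      Nat.card (Subgroup.centralizer {x}) = Nat.card (Subgroup.centralizer {y}))
    (q r : ℕ) (hq : q.Prime) (hr : r.Prime) (hqr : q ≠ r) (h1 : q ∣ (Subgroup.center G).index)
    (h2 : r ∣ (Subgroup.center G).index) (g : G) (hg : g ∉ Subgroup.center G) :
    ∀ a ∈ Subgroup.centralizer {g}, ∀ b ∈ Subgroup.centralizer {g}, a * b = b * a := by
  obtain ⟨p, k, hp, x, hxg, hxZ, hxo⟩ := exists_primary g hg
  have hgx : Subgroup.centralizer {g} = Subgroup.centralizer {x} := by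
    apply Subgroup.eq_of_le_of_card_ge
    · intro w hw
      rw [mem_cs] at hw ⊢
      obtain ⟨n, rfl⟩ := Subgroup.mem_zpowers_iff.1 hxg
      exact (Commute.zpow_left (show Commute g w from hw) n)
    · exact (hc x g hxZ hg).le
  obtain ⟨r', hr', hr'p, hr'i⟩ : ∃ r' : ℕ, r'.Prime ∧ r' ≠ p ∧ r' ∣ (Subgroup.center G).index := by
    by_cases hqp : q = p
    · exact ⟨r, hr, fun h => hqr (hqp.trans h.symm), h2⟩
    · exact ⟨q, hq, hqp, h1⟩
  have hle : Subgroup.center G ≤ Subgroup.centralizer {x} := by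
    intro w hw
    rw [mem_cs]
    exact Subgroup.mem_center_iff.1 hw x
  obtain ⟨y, hyC, hyZ, l, hyo⟩ := exists_qelt r' hr' (Subgroup.centralizer {x}) hle
    (dvd_relIndex hc r' hr' hr'i x hxZ)
  have hcop1 : (orderOf x).Coprime (orderOf y) := by
    rw [hxo, hyo]
    exact Nat.Coprime.pow _ _ ((Nat.coprime_primes hp hr').2 (Ne.symm hr'p))
  have hxy : Subgroup.centralizer {x} = Subgroup.centralizer {y} := by
    apply Subgroup.eq_of_le_of_card_ge
    · exact cent_le_of_coprime hc x y hxZ (mem_cs.1 hyC) hcop1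
    · exact (hc y x hyZ hxZ).le
  intro a ha b hb
  rw [hgx] at ha hb
  obtain ⟨u, hu, v, hv, hauv, ⟨k', huo⟩, hvo⟩ := exists_parts a p hp
  have hzC : ∀ w ∈ Subgroup.zpowers a, w ∈ Subgroup.centralizer {x} := by
    intro w hw
    exact (Subgroup.zpowers_le.2 ha) hw
  have hvx := hzC v hv
  have hux := hzC u hu
  have hcv : (orderOf x).Coprime (orderOf v) := by
    rw [hxo]
    exact Nat.Coprime.pow_left _ ((Nat.Prime.coprime_iff_not_dvd hp).2 hvo)
  have hbv : v * b = b * v := mem_cs.1 (cent_le_of_coprime hc x v hxZ (mem_cs.1 hvx) hcv hb)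
  have huy : u ∈ Subgroup.centralizer {y} := by rw [← hxy]; exact hux
  have hby : b ∈ Subgroup.centralizer {y} := by rw [← hxy]; exact hb
  have hcu : (orderOf y).Coprime (orderOf u) := by
    rw [hyo, huo]
    exact Nat.Coprime.pow _ _ ((Nat.coprime_primes hr' hp).2 hr'p)
  have hbu : u * b = b * u := mem_cs.1 (cent_le_of_coprime hc y u hyZ (mem_cs.1 huy) hcu hby)
  rw [hauv, mul_assoc, hbv, ← mul_assoc, hbu, mul_assoc]

end Pool.Agent.Helper407.NC

namespace Pool.Agent.Helper407.NC

theorem relIndex_le_index_aux {G : Type} [Group G] [Finite G]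
    (hc : ∀ x y : G, x ∉ Subgroup.center G → y ∉ Subgroup.center G →
      Nat.card (Subgroup.centralizer {x}) = Nat.card (Subgroup.centralizer {y}))
    (hab : ∀ g : G, g ∉ Subgroup.center G →
      ∀ a ∈ Subgroup.centralizer {g}, ∀ b ∈ Subgroup.centralizer {g}, a * b = b * a)
    (x y : G) (hx : x ∉ Subgroup.center G) (hy : y ∉ Subgroup.center G)
    (hxy : y ∈ Subgroup.centralizer {x}) :
    Subgroup.centralizer {y} = Subgroup.centralizer {x} := by
  have hle : Subgroup.centralizer {x} ≤ Subgroup.centralizer {y} := by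
    intro a ha
    rw [Subgroup.mem_centralizer_singleton_iff]
    exact hab x hx a ha y hxy
  exact (Subgroup.eq_of_le_of_card_ge hle (hc y x hy hx).le).symm

/-- partition counting -/
theorem relIndex_le_index {G : Type} [Group G] [Finite G]
    (hc : ∀ x y : G, x ∉ Subgroup.center G → y ∉ Subgroup.center G →
      Nat.card (Subgroup.centralizer {x}) = Nat.card (Subgroup.centralizer {y}))
    (hab : ∀ g : G, g ∉ Subgroup.center G →
      ∀ a ∈ Subgroup.centralizer {g}, ∀ b ∈ Subgroup.centralizer {g}, a * b = b * a)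
    (g : G) (hg : g ∉ Subgroup.center G) :
    (Subgroup.center G).relIndex (Subgroup.centralizer {g}) ≤
      (Subgroup.centralizer {g}).index := by
  classical
  haveI : Fintype G := Fintype.ofFinite G
  have hself : ∀ x : G, x ∈ Subgroup.centralizer {x} := fun x => by
    rw [Subgroup.mem_centralizer_singleton_iff]
  have hZle : ∀ x : G, Subgroup.center G ≤ Subgroup.centralizer {x} := fun x =>
    Subgroup.center_le_centralizer _
  set Z := Subgroup.center G with hZ
  set C := Subgroup.centralizer {g} with hC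
  set k := Z.relIndex C with hk
  set m := C.index with hm
  set z := Nat.card Z with hz
  have hz0 : 0 < z := Nat.card_pos
  have hcard : z * k = Nat.card C := by
    have h1 := Subgroup.card_mul_index (Z.subgroupOf C)
    have h2 : Nat.card (Z.subgroupOf C) = z :=
      Nat.card_congr (Subgroup.subgroupOfEquivOfLe (hZle g)).toEquiv
    rw [h2] at h1
    exact h1
  have hn : Nat.card C * m = Nat.card G := Subgroup.card_mul_index C
  have hk0 : 0 < k := by
    rcases Nat.eq_zero_or_pos k with h | h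
    · rw [h, mul_zero] at hcard
      have : 0 < Nat.card C := Nat.card_pos
      omega
    · exact h
  have hm1 : 1 < m := by
    have hm0 : m ≠ 0 := by
      intro h
      rw [h, mul_zero] at hn
      have : 0 < Nat.card G := Nat.card_pos
      omega
    have hm1' : m ≠ 1 := by
      intro h
      rw [hm, Subgroup.index_eq_one] at h
      apply hg
      rw [Subgroup.mem_center_iff]
      intro a
      have ha : a ∈ C := by rw [h]; exact Subgroup.mem_top a
      rw [hC, Subgroup.mem_centralizer_singleton_iff] at ha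
      exact ha
    omega
  -- counting
  let X : Finset G := Finset.univ.filter (fun x => x ∉ Z)
  have hX : X.card = Nat.card G - z := by
    have h1 : (Finset.univ.filter (fun x : G => x ∈ Z)).card = z := by
      rw [hz, Nat.card_eq_fintype_card, Fintype.card_subtype]
    have h2 := Finset.card_filter_add_card_filter_not (s := (Finset.univ : Finset G)) (fun x => x ∈ Z)
    rw [h1, Finset.card_univ, ← Nat.card_eq_fintype_card] at h2
    have h3 : X.card = (Finset.univ.filter (fun x : G => ¬ x ∈ Z)).card := rfl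
    omega
  have hfib : ∀ b ∈ X.image (fun x => Subgroup.centralizer {x}),
      (X.filter (fun x => Subgroup.centralizer {x} = b)).card = Nat.card C - z := by
    intro b hb
    rw [Finset.mem_image] at hb
    obtain ⟨x, hx, rfl⟩ := hb
    have hxZ : x ∉ Z := (Finset.mem_filter.mp hx).2
    have h1 : X.filter (fun y => Subgroup.centralizer {y} = Subgroup.centralizer {x}) =
        (Finset.univ.filter (fun y : G => y ∈ Subgroup.centralizer {x})) \
          (Finset.univ.filter (fun y : G => y ∈ Z)) := by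
      ext y
      simp only [X, Finset.mem_filter, Finset.mem_univ, true_and, Finset.mem_sdiff]
      constructor
      · rintro ⟨h1, h2⟩
        exact ⟨by rw [← h2]; exact hself y, h1⟩
      · rintro ⟨h1, h2⟩
        exact ⟨h2, relIndex_le_index_aux hc hab x y hxZ h2 h1⟩
    rw [h1, Finset.card_sdiff_of_subset]
    · have h2 : (Finset.univ.filter (fun y : G => y ∈ Subgroup.centralizer {x})).card = Nat.card C := by
        rw [← hc x g hxZ hg, Nat.card_eq_fintype_card, Fintype.card_subtype]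
      have h3 : (Finset.univ.filter (fun x : G => x ∈ Z)).card = z := by
        rw [hz, Nat.card_eq_fintype_card, Fintype.card_subtype]
      rw [h2, h3]
    · intro y hy
      rw [Finset.mem_filter] at hy ⊢
      exact ⟨hy.1, hZle x hy.2⟩
  have hsum := Finset.card_eq_sum_card_image (fun x => Subgroup.centralizer ({x} : Set G)) X
  rw [Finset.sum_congr rfl hfib, Finset.sum_const, smul_eq_mul, hX] at hsum
  have hdvd : (Nat.card C - z) ∣ (Nat.card G - z) := ⟨_, by rw [hsum, mul_comm]⟩
  obtain ⟨k', hk'⟩ : ∃ k', k = k' + 1 := ⟨k - 1, by omega⟩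
  obtain ⟨m', hm'⟩ : ∃ m', m = m' + 1 := ⟨m - 1, by omega⟩
  rw [← hn, ← hcard, hk', hm'] at hdvd
  have e1 : z * (k' + 1) - z = z * k' := by
    rw [mul_add, mul_one, Nat.add_sub_cancel]
  have e2 : z * (k' + 1) * (m' + 1) - z = z * (k' * (m' + 1) + m') := by
    have : z * (k' + 1) * (m' + 1) = z * (k' * (m' + 1) + m') + z := by ring
    rw [this, Nat.add_sub_cancel]
  rw [e1, e2] at hdvd
  have h5 := Nat.dvd_of_mul_dvd_mul_left hz0 hdvd
  have h6 : k' ∣ m' := (Nat.dvd_add_right (Dvd.intro _ rfl)).mp h5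
  have h7 : k' ≤ m' := Nat.le_of_dvd (by omega) h6
  omega

end Pool.Agent.Helper407.NC

namespace Pool.Agent.Helper407.NC

/-- an element that is central modulo the centre for a Sylow subgroup -/
theorem exists_central_mod {G : Type} [Group G] [Finite G] (q : ℕ) (hq : q.Prime) (S : Sylow q G)
    (h : q ∣ (Subgroup.center G).index) :
    ∃ x : G, x ∉ Subgroup.center G ∧ ∀ s ∈ S, ∃ z ∈ Subgroup.center G, s * x * s⁻¹ = x * z := by
  haveI : Fact q.Prime := ⟨hq⟩
  set Z := Subgroup.center G with hZ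
  set π := QuotientGroup.mk' Z with hπ
  set Sb : Subgroup (G ⧸ Z) := Subgroup.map π (S : Subgroup G) with hSb
  have hp : IsPGroup q Sb := S.isPGroup'.map π
  have hne : Sb ≠ ⊥ := by
    intro hb
    have hle : (S : Subgroup G) ≤ Z := by
      intro x hx
      have : π x ∈ Sb := Subgroup.mem_map_of_mem π hx
      rw [hb, Subgroup.mem_bot] at this
      exact (QuotientGroup.eq_one_iff x).1 this
    have h1 : Z.index ∣ (S : Subgroup G).index := Subgroup.index_dvd_of_le hle
    exact S.not_dvd_index (h.trans h1)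
  haveI : Nontrivial Sb := (Subgroup.nontrivial_iff_ne_bot Sb).2 hne
  haveI : Finite Sb := inferInstance
  have hc : Nontrivial (Subgroup.center Sb) := hp.center_nontrivial
  obtain ⟨xb, hxb, hxb1⟩ := (Subgroup.nontrivial_iff_exists_ne_one _).1 hc
  obtain ⟨x, hxS, hx⟩ := Subgroup.mem_map.1 xb.2
  refine ⟨x, ?_, ?_⟩
  · intro hxZ
    apply hxb1
    apply Subtype.ext
    rw [← hx]
    exact (QuotientGroup.eq_one_iff x).2 hxZ
  · intro s hs
    refine ⟨x⁻¹ * (s * x * s⁻¹), ?_, by group⟩
    have hsb : π s ∈ Sb := Subgroup.mem_map_of_mem π hs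
    have hcomm := Subgroup.mem_center_iff.1 hxb ⟨π s, hsb⟩
    have hcomm' : π s * π x = π x * π s := by
      have := congrArg Subtype.val hcomm
      simpa [← hx] using this
    have h1 : π (x⁻¹ * (s * x * s⁻¹)) = 1 := by
      rw [map_mul, map_mul, map_mul, map_inv, map_inv, hcomm']
      group
    exact (QuotientGroup.eq_one_iff _).1 h1

/-- Auxiliary statement. -/
theorem fix_of_coprime {G : Type} [Group G] [Finite G] (q r : ℕ) (hq : q.Prime) (hr : r.Prime)
    (hqr : q ≠ r) (s y z : G) (k l : ℕ) (hs : orderOf s = q ^ k) (hy : orderOf y = r ^ l)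
    (hz : z ∈ Subgroup.center G) (h : s * y * s⁻¹ = y * z) : z = 1 := by
  have hzc : ∀ g : G, g * z = z * g := fun g => Subgroup.mem_center_iff.1 hz g
  have hiter : ∀ j : ℕ, s ^ j * y * (s ^ j)⁻¹ = y * z ^ j := by
    intro j
    induction j with
    | zero => simp
    | succ j ih =>
      have h1 : s ^ (j + 1) * y * (s ^ (j + 1))⁻¹ = s * (s ^ j * y * (s ^ j)⁻¹) * s⁻¹ := by
        rw [pow_succ']
        group
      rw [h1, ih]
      have hcz : ∀ g : G, g * z ^ j = z ^ j * g := fun g =>
        ((show Commute g z from hzc g).pow_right j).eq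
      calc s * (y * z ^ j) * s⁻¹ = s * y * (z ^ j * s⁻¹) := by group
        _ = s * y * (s⁻¹ * z ^ j) := by rw [hcz s⁻¹]
        _ = (s * y * s⁻¹) * z ^ j := by group
        _ = y * z * z ^ j := by rw [h]
        _ = y * z ^ (j + 1) := by rw [mul_assoc, ← pow_succ']
  have h1 : z ^ (q ^ k) = 1 := by
    have := hiter (q ^ k)
    rw [← hs, pow_orderOf_eq_one] at this
    rw [← hs]
    have h2 : y = y * z ^ orderOf s := by simpa using this
    exact (mul_eq_left.1 h2.symm)
  have h2 : z ^ (r ^ l) = 1 := by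
    have h3 : orderOf (y * z) = r ^ l := by
      rw [← h, ← hy]
      exact orderOf_injective (MulAut.conj s).toMonoidHom (MulAut.conj s).injective y
    have h4 : (y * z) ^ (r ^ l) = 1 := by rw [← h3]; exact pow_orderOf_eq_one _
    rw [(show Commute y z from hzc y).mul_pow] at h4
    rw [← hy, pow_orderOf_eq_one, one_mul] at h4
    rw [← hy]; exact h4
  have h3 : orderOf z ∣ q ^ k := orderOf_dvd_of_pow_eq_one h1
  have h4 : orderOf z ∣ r ^ l := orderOf_dvd_of_pow_eq_one h2
  have hco : Nat.Coprime (q ^ k) (r ^ l) := Nat.Coprime.pow k l ((Nat.coprime_primes hq hr).2 hqr)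
  have h5 : orderOf z = 1 := Nat.eq_one_of_dvd_coprimes hco h3 h4
  exact orderOf_eq_one_iff.1 h5

/-- semiregular counting -/
theorem index_dvd_card {S X : Type} [Group S] [Finite S] [Finite X] [MulAction S X]
    (S₀ : Subgroup S) (h : ∀ x : X, MulAction.stabilizer S x = S₀) : S₀.index ∣ Nat.card X := by
  classical
  have e := MulAction.selfEquivSigmaOrbitsQuotientStabilizer S X
  have e2 : (Σ ω : Quotient (MulAction.orbitRel S X), S ⧸ MulAction.stabilizer S ω.out) ≃
      (Quotient (MulAction.orbitRel S X)) × (S ⧸ S₀) :=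
    (Equiv.sigmaCongrRight (fun ω => by rw [h])).trans (Equiv.sigmaEquivProd _ _)
  rw [Nat.card_congr (e.trans e2), Nat.card_prod]
  exact Dvd.intro_left _ rfl

end Pool.Agent.Helper407.NC

namespace Pool.Agent.Helper407.NC

/-- lifting an `r`-element of a quotient to an `r`-element -/
theorem lift_r {G Q : Type} [Group G] [Finite G] [Group Q] (f : G →* Q) (r : ℕ) (hr : r.Prime)
    (y0 : G) (k : ℕ) (hk : (f y0) ^ (r ^ k) = 1) :
    ∃ (j : ℕ) (l : ℕ), f (y0 ^ j) = f y0 ∧ orderOf (y0 ^ j) = r ^ l := by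
  have hN : orderOf y0 ≠ 0 := (orderOf_pos y0).ne'
  obtain ⟨e, m, hm, hem⟩ := Nat.exists_eq_pow_mul_and_not_dvd hN r hr.ne_one
  have hcop : Nat.Coprime (r ^ (e + k)) m :=
    Nat.Coprime.pow_left _ ((Nat.Prime.coprime_iff_not_dvd hr).2 hm)
  obtain ⟨j, hj1, hj2⟩ := Nat.chineseRemainder hcop 1 0
  have hfj : f (y0 ^ j) = f y0 := by
    rw [map_pow]
    have h1 : (f y0) ^ (r ^ (e + k)) = 1 := by
      rw [pow_add, mul_comm, pow_mul, hk, one_pow]
    have h2 : orderOf (f y0) ∣ r ^ (e + k) := orderOf_dvd_of_pow_eq_one h1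
    have h3 : j ≡ 1 [MOD orderOf (f y0)] := hj1.of_dvd h2
    have h4 := (pow_eq_pow_iff_modEq (x := f y0)).2 h3
    rw [h4, pow_one]
  have hpow : (y0 ^ j) ^ (r ^ e) = 1 := by
    rw [← pow_mul]
    apply orderOf_dvd_iff_pow_eq_one.1
    rw [hem, mul_comm]
    exact Nat.mul_dvd_mul ((Nat.modEq_zero_iff_dvd).1 hj2) dvd_rfl
  obtain ⟨l, _, hl⟩ := (Nat.dvd_prime_pow hr).1 (orderOf_dvd_of_pow_eq_one hpow)
  exact ⟨j, l, hfj, hl⟩

/-- counting with the action of a Sylow `q`-subgroup on the `r`-part of `C(x)/Z` -/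
theorem part_lt {G : Type} [Group G] [Finite G]
    (hc : ∀ x y : G, x ∉ Subgroup.center G → y ∉ Subgroup.center G →
      Nat.card (Subgroup.centralizer {x}) = Nat.card (Subgroup.centralizer {y}))
    (hab : ∀ g : G, g ∉ Subgroup.center G →
      ∀ a ∈ Subgroup.centralizer {g}, ∀ b ∈ Subgroup.centralizer {g}, a * b = b * a)
    (q r : ℕ) (hq : q.Prime) (hr : r.Prime) (hqr : q ≠ r) (h1 : q ∣ (Subgroup.center G).index)
    (g : G) (hg : g ∉ Subgroup.center G)
    (h2 : r ∣ (Subgroup.center G).relIndex (Subgroup.centralizer {g})) :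
    q ^ (Subgroup.centralizer {g}).index.factorization q <
      r ^ ((Subgroup.center G).relIndex (Subgroup.centralizer {g})).factorization r := by
  classical
  haveI := Fact.mk hq
  haveI := Fact.mk hr
  obtain ⟨S⟩ : Nonempty (Sylow q G) := inferInstance
  obtain ⟨x, hx, hxs⟩ := exists_central_mod q hq S h1
  have hcard := hc x g hx hg
  have hcomm := hab x hx
  have hZC : Subgroup.center G ≤ Subgroup.centralizer {x} := Subgroup.center_le_centralizer _
  have hZCg : Subgroup.center G ≤ Subgroup.centralizer {g} := Subgroup.center_le_centralizer _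
  -- transfer to x
  have hidx : (Subgroup.centralizer {g}).index = (Subgroup.centralizer {x}).index := by
    have e1 := (Subgroup.centralizer {g}).card_mul_index
    have e2 := (Subgroup.centralizer {x}).card_mul_index
    rw [hcard, ← e1] at e2
    exact (Nat.eq_of_mul_eq_mul_left Nat.card_pos e2).symm
  have hrel : (Subgroup.center G).relIndex (Subgroup.centralizer {g}) =
      (Subgroup.center G).relIndex (Subgroup.centralizer {x}) := by
    have e1 := Subgroup.relIndex_mul_index hZCg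
    have e2 := Subgroup.relIndex_mul_index hZC
    rw [hidx, ← e2] at e1
    exact Nat.eq_of_mul_eq_mul_right (Nat.pos_of_ne_zero Subgroup.index_ne_zero_of_finite) e1
  rw [hidx, hrel]
  rw [hrel] at h2
  generalize hC : Subgroup.centralizer {x} = C at *
  generalize hZ : Subgroup.center G = Z at *
  have hZn : Z.Normal := by rw [← hZ]; infer_instance
  have hmemC : ∀ c, c ∈ C ↔ x * c = c * x := by
    intro c
    rw [← hC, Subgroup.mem_centralizer_iff]
    simp
  have hCy : ∀ y ∈ C, y ∉ Z → ∀ s, y * s = s * y → s ∈ C := by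
    intro y hy hyz s hs
    have hle : C ≤ Subgroup.centralizer {y} := by
      intro c hcC
      rw [Subgroup.mem_centralizer_iff]
      intro h hh
      rw [Set.mem_singleton_iff] at hh
      rw [hh]
      exact hcomm y hy c hcC
    have hcc : Nat.card (Subgroup.centralizer {y}) ≤ Nat.card C := by
      rw [← hC]; exact (hc y x hyz hx).le
    have heq := Subgroup.eq_of_le_of_card_ge hle hcc
    rw [heq, Subgroup.mem_centralizer_iff]
    intro h hh
    rw [Set.mem_singleton_iff] at hh
    rw [hh]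
    exact hs
  have hZmem : ∀ z ∈ Z, ∀ a : G, a * z = z * a := by
    intro z hz a
    rw [← hZ] at hz
    exact (Subgroup.mem_center_iff.1 hz a)
  have hnorm : ∀ s ∈ S, ∀ c ∈ C, s * c * s⁻¹ ∈ C := by
    intro s hs c hcC
    obtain ⟨z, hz, hsz⟩ := hxs s hs
    rw [hmemC] at hcC ⊢
    have h3 : x * z * (s * c * s⁻¹) = (s * c * s⁻¹) * (x * z) := by
      rw [← hsz]
      calc s * x * s⁻¹ * (s * c * s⁻¹) = s * (x * c) * s⁻¹ := by group
        _ = s * (c * x) * s⁻¹ := by rw [hcC]
        _ = _ := by group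
    have h4 : x * (s * c * s⁻¹) * z = (s * c * s⁻¹) * x * z := by
      calc x * (s * c * s⁻¹) * z = x * ((s * c * s⁻¹) * z) := mul_assoc _ _ _
        _ = x * (z * (s * c * s⁻¹)) := by rw [hZmem z hz]
        _ = x * z * (s * c * s⁻¹) := (mul_assoc _ _ _).symm
        _ = (s * c * s⁻¹) * (x * z) := h3
        _ = (s * c * s⁻¹) * x * z := (mul_assoc _ _ _).symm
    exact mul_right_cancel h4
  -- the quotient
  let mk : G →* G ⧸ Z := QuotientGroup.mk' Z
  have hmk : ∀ a, mk a = 1 ↔ a ∈ Z := fun a => QuotientGroup.eq_one_iff a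
  let Cb : Subgroup (G ⧸ Z) := C.map mk
  have hCbcomm : ∀ a ∈ Cb, ∀ b ∈ Cb, a * b = b * a := by
    rintro _ ⟨a, ha, rfl⟩ _ ⟨b, hb, rfl⟩
    rw [← map_mul, ← map_mul, hcomm a ha b hb]
  have hCbcard : Nat.card Cb = Z.relIndex C := by
    have := Subgroup.relIndex_ker (K := C) mk
    rw [QuotientGroup.ker_mk'] at this
    exact this.symm
  obtain ⟨P⟩ : Nonempty (Sylow r Cb) := inferInstance
  have hPcard : Nat.card P = r ^ (Nat.card Cb).factorization r := P.card_eq_multiplicity
  let P0 : Subgroup (G ⧸ Z) := (P : Subgroup Cb).map Cb.subtype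
  have hP0card : Nat.card P0 = r ^ (Z.relIndex C).factorization r := by
    rw [← hCbcard, ← hPcard]
    exact Subgroup.card_map_of_injective Cb.subtype_injective
  have hP0le : P0 ≤ Cb := Subgroup.map_subtype_le _
  have hP0pow : ∀ w ∈ P0, ∃ k, w ^ (r ^ k) = 1 := by
    rintro _ ⟨w, hw, rfl⟩
    obtain ⟨k, hk⟩ := P.isPGroup' ⟨w, hw⟩
    refine ⟨k, ?_⟩
    have := congrArg (fun t : P => ((t : Cb) : G ⧸ Z)) hk
    simpa using this
  have hPn : (P : Subgroup Cb).Normal := by
    refine ⟨fun n hn g => ?_⟩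
    have : g * n * g⁻¹ = n := by
      apply Subtype.ext
      show (g : G ⧸ Z) * n * (g : G ⧸ Z)⁻¹ = n
      rw [hCbcomm g g.2 n n.2, mul_inv_cancel_right]
    rw [this]; exact hn
  have hP0mem : ∀ w ∈ Cb, (∃ k, w ^ (r ^ k) = 1) → w ∈ P0 := by
    rintro w hw ⟨k, hk⟩
    have hp : IsPGroup r (Subgroup.zpowers (⟨w, hw⟩ : Cb)) := by
      rw [IsPGroup.iff_card]
      rw [Nat.card_zpowers]
      have : (⟨w, hw⟩ : Cb) ^ (r ^ k) = 1 := Subtype.ext (by simpa using hk)
      obtain ⟨l, _, hl⟩ := (Nat.dvd_prime_pow hr).1 (orderOf_dvd_of_pow_eq_one this)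
      exact ⟨l, hl⟩
    obtain ⟨P', hP'⟩ := hp.exists_le_sylow
    obtain ⟨gg, hgg⟩ := MulAction.exists_smul_eq Cb P P'
    have hPP : P = P' := by rw [← hgg, Sylow.smul_eq_of_normal]
    refine ⟨⟨w, hw⟩, ?_, rfl⟩
    have := hP' (Subgroup.mem_zpowers _)
    rw [hPP]; exact this
  have key : ∀ s : G, s ∈ S → ∀ w ∈ P0, mk s * w * (mk s)⁻¹ ∈ P0 := by
    intro s hs w hw
    obtain ⟨c, hcC, hcw⟩ := hP0le hw
    obtain ⟨k, hk⟩ := hP0pow w hw
    refine hP0mem _ ⟨s * c * s⁻¹, hnorm s hs c hcC, ?_⟩ ⟨k, ?_⟩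
    · rw [map_mul, map_mul, map_inv, hcw]
    · rw [conj_pow, hk, mul_one, mul_inv_cancel]
  let X : Type := ↥((P0 : Set (G ⧸ Z)) \ {1})
  letI act : MulAction S X :=
    { smul := fun s w => ⟨mk (s : G) * w.1 * (mk (s : G))⁻¹, key s s.2 w.1 w.2.1, by
        intro h
        apply w.2.2
        rw [Set.mem_singleton_iff] at h ⊢
        rwa [mul_inv_eq_one, mul_eq_left] at h⟩
      one_smul := by
        intro w
        apply Subtype.ext
        show mk ((1 : S) : G) * w.1 * (mk ((1 : S) : G))⁻¹ = w.1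
        rw [Subgroup.coe_one, map_one, one_mul, inv_one, mul_one]
      mul_smul := by
        intro s t w
        apply Subtype.ext
        show mk ((s * t : S) : G) * w.1 * (mk ((s * t : S) : G))⁻¹ =
          mk (s : G) * (mk (t : G) * w.1 * (mk (t : G))⁻¹) * (mk (s : G))⁻¹
        rw [Subgroup.coe_mul, map_mul, mul_inv_rev]
        simp only [mul_assoc] }
  have hstab : ∀ w : X, MulAction.stabilizer S w = C.subgroupOf (S : Subgroup G) := by
    intro w
    obtain ⟨c0, hc0, hcw⟩ := hP0le w.2.1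
    obtain ⟨k, hk⟩ := hP0pow w.1 w.2.1
    obtain ⟨j, l, hj, hl⟩ := lift_r mk r hr c0 k (by rw [hcw]; exact hk)
    have hyC : c0 ^ j ∈ C := C.pow_mem hc0 j
    obtain ⟨y, hy⟩ : ∃ y, y = c0 ^ j := ⟨_, rfl⟩
    rw [← hy] at hj hl hyC
    rw [hcw] at hj
    have hyZ : y ∉ Z := by
      intro h
      rw [← hmk, hj] at h
      exact w.2.2 h
    ext s
    rw [MulAction.mem_stabilizer_iff, Subgroup.mem_subgroupOf]
    have hsm : s • w = w ↔ mk (s : G) * w.1 * (mk (s : G))⁻¹ = w.1 := Subtype.ext_iff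
    rw [hsm]
    constructor
    · intro h
      rw [← hj, ← map_inv, ← map_mul, ← map_mul] at h
      have hz : y⁻¹ * ((s : G) * y * (s : G)⁻¹) ∈ Z := by
        rw [← hmk, map_mul, h, map_inv, inv_mul_cancel]
      obtain ⟨ks, hks⟩ := IsPGroup.iff_orderOf.1 S.isPGroup' s
      have hks' : orderOf (s : G) = q ^ ks := by rw [← hks]; exact Subgroup.orderOf_coe s
      have h5 := fix_of_coprime q r hq hr hqr (s : G) y _ ks l hks' hl (by rw [hZ]; exact hz)
        (by group : (s : G) * y * (s : G)⁻¹ = y * (y⁻¹ * ((s : G) * y * (s : G)⁻¹)))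
      have h6 : (s : G) * y * (s : G)⁻¹ = y := by
        have := congrArg (fun t => y * t) h5
        simpa using this
      refine hCy y hyC hyZ s ?_
      rw [mul_inv_eq_iff_eq_mul] at h6
      exact h6.symm
    · intro h
      rw [← hj, ← map_inv, ← map_mul, ← map_mul]
      rw [hcomm _ h y hyC, mul_inv_cancel_right]
  have hdvd := index_dvd_card (C.subgroupOf (S : Subgroup G)) hstab
  have hXcard : Nat.card X + 1 = Nat.card P0 := by
    have e1 : Nat.card X = ((P0 : Set (G ⧸ Z)) \ {1}).ncard := Nat.card_coe_set_eq _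
    have e2 : Nat.card P0 = (P0 : Set (G ⧸ Z)).ncard := Nat.card_coe_set_eq _
    rw [e1, e2]
    exact Set.ncard_sdiff_singleton_add_one (one_mem P0) (Set.toFinite _)
  have hrle : 2 ≤ Nat.card P0 := by
    rw [hP0card]
    have hne : Z.relIndex C ≠ 0 := by
      rw [← hCbcard]; exact Nat.card_pos.ne'
    have : 1 ≤ (Z.relIndex C).factorization r := (hr.factorization_pos_of_dvd hne h2)
    calc 2 ≤ r := hr.two_le
      _ = r ^ 1 := (pow_one r).symm
      _ ≤ _ := Nat.pow_le_pow_right hr.pos this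
  have hlt : (C.subgroupOf (S : Subgroup G)).index < r ^ (Z.relIndex C).factorization r := by
    rw [← hP0card]
    have := Nat.le_of_dvd (by omega) hdvd
    omega
  refine lt_of_le_of_lt ?_ hlt
  -- the q-part
  have hS : Nat.card S = q ^ (Nat.card G).factorization q := S.card_eq_multiplicity
  have hmul := (C.subgroupOf (S : Subgroup G)).card_mul_index
  have hdS : Nat.card (C.subgroupOf (S : Subgroup G)) ∣ q ^ (Nat.card G).factorization q := by
    rw [← hS]; exact Dvd.intro _ hmul
  obtain ⟨j, hj1, hj2⟩ := (Nat.dvd_prime_pow hq).1 hdS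
  have hdC : Nat.card (C.subgroupOf (S : Subgroup G)) ∣ Nat.card C := by
    have e1 : Nat.card (C.subgroupOf (S : Subgroup G)) = Nat.card (C ⊓ (S : Subgroup G) : Subgroup G) := by
      rw [← Subgroup.subgroupOf_map_subtype]
      exact (Subgroup.card_map_of_injective (Subgroup.subtype_injective _)).symm
    rw [e1]
    exact Subgroup.card_dvd_of_le inf_le_left
  have hjle : j ≤ (Nat.card C).factorization q := by
    rw [hj2] at hdC
    exact (hq.pow_dvd_iff_le_factorization Nat.card_pos.ne').1 hdC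
  have hG := C.card_mul_index
  have hfac : (Nat.card G).factorization q = (Nat.card C).factorization q +
      C.index.factorization q := by
    rw [← hG, Nat.factorization_mul Nat.card_pos.ne' Subgroup.index_ne_zero_of_finite]
    rfl
  have h7 : q ^ j * (C.subgroupOf (S : Subgroup G)).index = q ^ (Nat.card G).factorization q := by
    rw [← hj2, hmul]; exact hS
  have h8 : q ^ j * q ^ C.index.factorization q ≤
      q ^ j * (C.subgroupOf (S : Subgroup G)).index := by
    rw [h7, ← pow_add]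
    exact Nat.pow_le_pow_right hq.pos (by omega)
  exact Nat.le_of_mul_le_mul_left h8 (pow_pos hq.pos j)

end Pool.Agent.Helper407.NC

namespace Pool.Agent.Helper407.NC

/-- Auxiliary statement. -/
theorem lt_of_parts (κ m q₀ r₀ : ℕ) (hκ : 0 < κ) (hm : 0 < m) (hq₀ : q₀.Prime) (hr₀ : r₀.Prime)
    (hne : q₀ ≠ r₀) (hq₀κ : q₀ ∣ κ) (hr₀κ : r₀ ∣ κ)
    (hsub : ∀ q : ℕ, q.Prime → q ∣ m → q ∣ κ)
    (h : ∀ q r : ℕ, q.Prime → r.Prime → q ≠ r → q ∣ κ → r ∣ κ →
      q ^ m.factorization q < r ^ κ.factorization r) : m < κ := by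
  classical
  have hmemP : ∀ q, q ∈ κ.primeFactors ↔ q.Prime ∧ q ∣ κ := fun q => by
    rw [Nat.mem_primeFactors]
    exact ⟨fun h => ⟨h.1, h.2.1⟩, fun h => ⟨h.1, h.2, hκ.ne'⟩⟩
  have hκprod : ∏ q ∈ κ.primeFactors, q ^ κ.factorization q = κ := by
    conv_rhs => rw [← Nat.prod_factorization_pow_eq_self hκ.ne']
    rfl
  have hmprod : ∏ q ∈ κ.primeFactors, q ^ m.factorization q = m := by
    conv_rhs => rw [← Nat.prod_factorization_pow_eq_self hm.ne']
    symm
    refine Finsupp.prod_of_support_subset _ ?_ _ (fun i _ => pow_zero i)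
    intro q hq
    rw [Nat.support_factorization] at hq
    have hq' := Nat.mem_primeFactors.mp hq
    exact (hmemP q).mpr ⟨hq'.1, hsub q hq'.1 hq'.2.1⟩
  have hq₀P : q₀ ∈ κ.primeFactors := (hmemP q₀).mpr ⟨hq₀, hq₀κ⟩
  have hr₀P : r₀ ∈ κ.primeFactors := (hmemP r₀).mpr ⟨hr₀, hr₀κ⟩
  obtain ⟨q1, hq1, hq1min⟩ := Finset.exists_min_image κ.primeFactors (fun q => q ^ κ.factorization q) ⟨q₀, hq₀P⟩
  obtain ⟨r1, hr1, hr1q1⟩ : ∃ r1 ∈ κ.primeFactors, r1 ≠ q1 := by
    by_cases hc : q₀ = q1
    · exact ⟨r₀, hr₀P, fun h' => hne (hc.trans h'.symm)⟩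
    · exact ⟨q₀, hq₀P, hc⟩
  have hr1' : r1 ∈ κ.primeFactors.erase q1 := Finset.mem_erase.mpr ⟨hr1q1, hr1⟩
  have hsplit : ∀ F : ℕ → ℕ, ∏ q ∈ κ.primeFactors, F q =
      F q1 * (F r1 * ∏ q ∈ (κ.primeFactors.erase q1).erase r1, F q) := fun F => by
    rw [Finset.mul_prod_erase _ _ hr1', Finset.mul_prod_erase _ _ hq1]
  have hq1' := (hmemP q1).mp hq1
  have hr1'' := (hmemP r1).mp hr1
  have h1 := h q1 r1 hq1'.1 hr1''.1 hr1q1.symm hq1'.2 hr1''.2
  have h2 := h r1 q1 hr1''.1 hq1'.1 hr1q1 hr1''.2 hq1'.2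
  have h3 : ∏ q ∈ (κ.primeFactors.erase q1).erase r1, q ^ m.factorization q ≤
      ∏ q ∈ (κ.primeFactors.erase q1).erase r1, q ^ κ.factorization q := by
    refine Finset.prod_le_prod' fun q hq => ?_
    have hqe := Finset.mem_erase.mp (Finset.mem_of_mem_erase hq)
    have hq' := (hmemP q).mp hqe.2
    exact (h q q1 hq'.1 hq1'.1 hqe.1 hq'.2 hq1'.2).le.trans (hq1min q hqe.2)
  have h4 : 0 < ∏ q ∈ (κ.primeFactors.erase q1).erase r1, q ^ m.factorization q := by
    refine Finset.prod_pos fun q hq => ?_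
    have hqe := Finset.mem_erase.mp (Finset.mem_of_mem_erase hq)
    exact pow_pos ((hmemP q).mp hqe.2).1.pos _
  rw [← hκprod, ← hmprod, hsplit, hsplit]
  calc q1 ^ m.factorization q1 * (r1 ^ m.factorization r1 * ∏ q ∈ (κ.primeFactors.erase q1).erase r1, q ^ m.factorization q)
      = (q1 ^ m.factorization q1 * r1 ^ m.factorization r1) * ∏ q ∈ (κ.primeFactors.erase q1).erase r1, q ^ m.factorization q := by ring
    _ < (r1 ^ κ.factorization r1 * q1 ^ κ.factorization q1) * ∏ q ∈ (κ.primeFactors.erase q1).erase r1, q ^ m.factorization q :=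
        Nat.mul_lt_mul_of_pos_right (Nat.mul_lt_mul'' h1 h2) h4
    _ ≤ (r1 ^ κ.factorization r1 * q1 ^ κ.factorization q1) * ∏ q ∈ (κ.primeFactors.erase q1).erase r1, q ^ κ.factorization q :=
        Nat.mul_le_mul_left _ h3
    _ = _ := by ring

end Pool.Agent.Helper407.NC
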