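import Mathlib
import Pool.Agent.Helper407.NC.Core
import Pool.Agent.Helper407.NC.ItoL
set_option autoImplicit false
namespace Pool.Agent.Helper407.NC

/-- Ito's theorem: a finite group all of whose noncentral classes have the same size is
nilpotent. -/
theorem ito {G : Type} [Group G] [Finite G]
    (hc : ∀ x y : G, x ∉ Subgroup.center G → y ∉ Subgroup.center G →
      Nat.card (Subgroup.centralizer {x}) = Nat.card (Subgroup.centralizer {y})) :
    Group.IsNilpotent G := by
  have hidx : (Subgroup.center G).index ≠ 0 := Subgroup.index_ne_zero_of_finite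
  by_cases hpp : ∃ p S : ℕ, p.Prime ∧ (Subgroup.center G).index = p ^ S
  · obtain ⟨p, S, hp, hS⟩ := hpp
    exact nilpotent_of_index p S hp hS
  exfalso
  push Not at hpp
  have hne1 : (Subgroup.center G).index ≠ 1 := by
    intro h
    exact hpp 2 0 Nat.prime_two (by simpa using h)
  set n := (Subgroup.center G).index with hn
  have hq : (n.minFac).Prime := Nat.minFac_prime hne1
  have hqd : n.minFac ∣ n := Nat.minFac_dvd n
  obtain ⟨k, m', hm', hnk⟩ := Nat.exists_eq_pow_mul_and_not_dvd hidx n.minFac hq.ne_one
  have hm1 : m' ≠ 1 := by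
    rintro rfl
    exact hpp n.minFac k hq (by rw [mul_one] at hnk; exact hnk)
  have hr : (m'.minFac).Prime := Nat.minFac_prime hm1
  have hrd' : m'.minFac ∣ m' := Nat.minFac_dvd m'
  have hrd : m'.minFac ∣ n := by
    rw [hnk]; exact hrd'.mul_left _
  have hqr : n.minFac ≠ m'.minFac := by
    intro h
    apply hm'
    rw [h]; exact hrd'
  obtain ⟨g, hg⟩ : ∃ g : G, g ∉ Subgroup.center G := by
    by_contra hcon
    push Not at hcon
    apply hne1
    rw [hn, Subgroup.index_eq_one, eq_top_iff]
    intro x _
    exact hcon x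
  have hab := cent_comm hc n.minFac m'.minFac hq hr hqr hqd hrd
  have hle := relIndex_le_index hc hab g hg
  have hmul : (Subgroup.center G).relIndex (Subgroup.centralizer {g}) *
      (Subgroup.centralizer {g}).index = n :=
    Subgroup.relIndex_mul_index (Subgroup.center_le_centralizer _)
  have hκ0 : (Subgroup.center G).relIndex (Subgroup.centralizer {g}) ≠ 0 := by
    intro h; rw [h, zero_mul] at hmul; exact hidx hmul.symm
  have hm0 : (Subgroup.centralizer {g}).index ≠ 0 := Subgroup.index_ne_zero_of_finite
  have hlt := lt_of_parts ((Subgroup.center G).relIndex (Subgroup.centralizer {g}))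
    (Subgroup.centralizer {g}).index n.minFac m'.minFac (Nat.pos_of_ne_zero hκ0)
    (Nat.pos_of_ne_zero hm0) hq hr hqr
    (dvd_relIndex hc _ hq hqd g hg) (dvd_relIndex hc _ hr hrd g hg)
    (fun q' hq' hd => dvd_relIndex hc q' hq' (by rw [← hn, ← hmul]; exact hd.mul_left _) g hg)
    (fun q' r' hq' hr' hne hqd' hrd' => part_lt hc hab q' r' hq' hr' hne
      (by rw [← hn, ← hmul]; exact hqd'.mul_right _) g hg hrd')
  omega

end Pool.Agent.Helper407.NC
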