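import Mathlib
import Pool.Agent.Helper407.NC.Core
import Pool.Agent.Helper407.NC.Ito
set_option autoImplicit false
namespace Pool.Agent.Helper407.NC

/-- If all noncentral classes of `H` have the same size then `G` is nilpotent. -/
theorem equal_classes {G H : Type} [Group G] [Group H] [Finite G] [Finite H]
    (e : ncGraph G ≃g ncGraph H)
    (h : ∀ x y : H, x ∉ Subgroup.center H → y ∉ Subgroup.center H →
      (Subgroup.centralizer {x}).index = (Subgroup.centralizer {y}).index) :
    Group.IsNilpotent G := by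
  apply ito
  intro x y hx hy
  have h1 := (card_eqs e).2 ⟨x, hx⟩
  have h2 := (card_eqs e).2 ⟨y, hy⟩
  have h3 := h _ _ (e ⟨x, hx⟩).2 (e ⟨y, hy⟩).2
  have c1 := Subgroup.card_mul_index (Subgroup.centralizer {(e ⟨x, hx⟩).1})
  have c2 := Subgroup.card_mul_index (Subgroup.centralizer {(e ⟨y, hy⟩).1})
  rw [h3, ← c2] at c1
  have hne : (Subgroup.centralizer {(e ⟨y, hy⟩).1}).index ≠ 0 :=
    Subgroup.index_ne_zero_of_finite
  have c3 := Nat.eq_of_mul_eq_mul_right (Nat.pos_of_ne_zero hne) c1
  rw [c3] at h1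
  simp only at h1 h2
  omega

end Pool.Agent.Helper407.NC
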