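import Mathlib
import Pool.Agent.Helper407.NC.Core
import Pool.Agent.Helper407.NC.ItoL
set_option autoImplicit false

namespace Pool.Agent.Helper407.NC

/-- The subgroup of `G` corresponding to the centralizer of `T ⊆ H`. -/
def pre {G H : Type} [Group G] [Group H] (e : ncGraph G ≃g ncGraph H) (T : Set H) : Subgroup G :=
  Subgroup.centralizer (Subtype.val '' {g : {g : G // g ∉ Subgroup.center G} | (e g).1 ∈ T})

end Pool.Agent.Helper407.NC

namespace Pool.Agent.Helper407.NC


theorem card_eqs_set_adj {G : Type} [Group G] (a y : {g : G // g ∉ Subgroup.center G}) :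
    ¬ (ncGraph G).Adj a y ↔ a.1 * y.1 = y.1 * a.1 := by
  rw [ncGraph, SimpleGraph.fromRel_adj]
  constructor
  · intro h
    by_contra hne
    apply h
    refine ⟨?_, Or.inl hne⟩
    rintro rfl
    exact hne rfl
  · rintro h ⟨_, h1 | h1⟩
    · exact h1 h
    · exact h1 h.symm

theorem card_eqs_set_aux {G : Type} [Group G] [Finite G]
    (A : Set {g : G // g ∉ Subgroup.center G}) :
    Nat.card (Subgroup.centralizer (Subtype.val '' A)) =
      Nat.card (Subgroup.center G) +
        Nat.card {y : {g : G // g ∉ Subgroup.center G} // ∀ a ∈ A, ¬ (ncGraph G).Adj a y} := by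
  classical
  have h0 : ((Subgroup.centralizer (Subtype.val '' A) : Subgroup G) : Set G) =
      ((Subgroup.center G : Subgroup G) : Set G) ∪
        Subtype.val '' {y : {g : G // g ∉ Subgroup.center G} | ∀ a ∈ A, ¬ (ncGraph G).Adj a y} := by
    ext x
    constructor
    · intro hx
      by_cases hc : x ∈ Subgroup.center G
      · exact Or.inl hc
      · right
        refine ⟨⟨x, hc⟩, ?_, rfl⟩
        intro a ha
        rw [card_eqs_set_adj]
        exact Subgroup.mem_centralizer_iff.1 hx a.1 ⟨a, ha, rfl⟩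
    · rintro (hx | ⟨y, hy, rfl⟩)
      · rw [SetLike.mem_coe, Subgroup.mem_centralizer_iff]
        intro h _
        exact Subgroup.mem_center_iff.1 hx h
      · rw [SetLike.mem_coe, Subgroup.mem_centralizer_iff]
        rintro _ ⟨a, ha, rfl⟩
        exact (card_eqs_set_adj a y).1 (hy a ha)
  have hd : Disjoint ((Subgroup.center G : Subgroup G) : Set G)
      (Subtype.val '' {y : {g : G // g ∉ Subgroup.center G} | ∀ a ∈ A, ¬ (ncGraph G).Adj a y}) := by
    rw [Set.disjoint_left]
    rintro x hx ⟨y, _, rfl⟩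
    exact y.2 hx
  have h1 : Nat.card (Subgroup.centralizer (Subtype.val '' A)) =
      ((Subgroup.centralizer (Subtype.val '' A) : Subgroup G) : Set G).ncard := rfl
  have h2 : Nat.card (Subgroup.center G) = ((Subgroup.center G : Subgroup G) : Set G).ncard := rfl
  have h3 : Nat.card {y : {g : G // g ∉ Subgroup.center G} // ∀ a ∈ A, ¬ (ncGraph G).Adj a y} =
      {y : {g : G // g ∉ Subgroup.center G} | ∀ a ∈ A, ¬ (ncGraph G).Adj a y}.ncard := rfl
  rw [h1, h2, h3, h0, Set.ncard_union_eq hd (Set.toFinite _) (Set.toFinite _),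
    Set.ncard_image_of_injective _ Subtype.val_injective]

/-- centralizers of sets of vertices under an isomorphism of non-commuting graphs. -/
theorem card_eqs_set {G H : Type} [Group G] [Group H] [Finite G] [Finite H]
    (e : ncGraph G ≃g ncGraph H) (A : Set {g : G // g ∉ Subgroup.center G}) :
    Nat.card (Subgroup.centralizer (Subtype.val '' A)) + Nat.card (Subgroup.center H) =
      Nat.card (Subgroup.centralizer (Subtype.val '' (e '' A))) +
        Nat.card (Subgroup.center G) := by
  rw [card_eqs_set_aux A, card_eqs_set_aux (e '' A)]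
  have h : Nat.card {y : {g : G // g ∉ Subgroup.center G} // ∀ a ∈ A, ¬ (ncGraph G).Adj a y} =
      Nat.card {y : {g : H // g ∉ Subgroup.center H} // ∀ a ∈ e '' A, ¬ (ncGraph H).Adj a y} := by
    apply Nat.card_congr
    refine e.toEquiv.subtypeEquiv ?_
    intro y
    constructor
    · rintro hy _ ⟨a, ha, rfl⟩ hadj
      exact hy a ha (e.map_adj_iff.1 hadj)
    · intro hy a ha hadj
      exact hy (e a) ⟨a, ha, rfl⟩ (e.map_adj_iff.2 hadj)
  rw [h]
  omega

end Pool.Agent.Helper407.NC

namespace Pool.Agent.Helper407.NC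



theorem adj_iff {G : Type} [Group G] (a b : {g : G // g ∉ Subgroup.center G}) :
    (ncGraph G).Adj a b ↔ a.1 * b.1 ≠ b.1 * a.1 := by
  unfold ncGraph
  rw [SimpleGraph.fromRel_adj]
  constructor
  · rintro ⟨_, h | h⟩
    · exact h
    · exact fun h' => h h'.symm
  · intro h
    refine ⟨?_, Or.inl h⟩
    intro hab
    rw [hab] at h
    exact h rfl

theorem comm_iff {G H : Type} [Group G] [Group H] (e : ncGraph G ≃g ncGraph H)
    (a b : {g : G // g ∉ Subgroup.center G}) :
    a.1 * b.1 = b.1 * a.1 ↔ (e a).1 * (e b).1 = (e b).1 * (e a).1 := by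
  have h := e.map_adj_iff (v := a) (w := b)
  rw [adj_iff, adj_iff] at h
  tauto

theorem mem_pre' {G H : Type} [Group G] [Group H] (e : ncGraph G ≃g ncGraph H) (T : Set H)
    (x : G) : x ∈ pre e T ↔ ∀ a : {g : G // g ∉ Subgroup.center G}, (e a).1 ∈ T →
      a.1 * x = x * a.1 := by
  unfold pre
  rw [Subgroup.mem_centralizer_iff]
  constructor
  · intro h a ha
    exact h a.1 ⟨a, ha, rfl⟩
  · rintro h _ ⟨a, ha, rfl⟩
    exact h a ha

theorem cent_eq {G H : Type} [Group G] [Group H] (e : ncGraph G ≃g ncGraph H) (T : Set H) :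
    Subgroup.centralizer (Subtype.val '' (e '' {g : {g : G // g ∉ Subgroup.center G} |
      (e g).1 ∈ T})) = Subgroup.centralizer T := by
  ext x
  rw [Subgroup.mem_centralizer_iff, Subgroup.mem_centralizer_iff]
  constructor
  · intro hx h hT
    by_cases hc : h ∈ Subgroup.center H
    · exact (Subgroup.mem_center_iff.mp hc x).symm
    · apply hx
      refine ⟨⟨h, hc⟩, ⟨e.symm ⟨h, hc⟩, ?_, ?_⟩, rfl⟩
      · show (e (e.symm ⟨h, hc⟩)).1 ∈ T
        rw [e.apply_symm_apply]
        exact hT
      · exact e.apply_symm_apply _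
  · rintro hx _ ⟨_, ⟨a, ha, rfl⟩, rfl⟩
    exact hx _ ha

/-- Auxiliary statement. -/
theorem pre_card {G H : Type} [Group G] [Group H] [Finite G] [Finite H]
    (e : ncGraph G ≃g ncGraph H) (T : Set H) :
    Nat.card (pre e T) + Nat.card (Subgroup.center H) =
      Nat.card (Subgroup.centralizer T) + Nat.card (Subgroup.center G) := by
  have h := card_eqs_set e {g : {g : G // g ∉ Subgroup.center G} | (e g).1 ∈ T}
  rw [cent_eq] at h
  exact h

/-- Auxiliary statement. -/
theorem mem_pre {G H : Type} [Group G] [Group H]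
    (e : ncGraph G ≃g ncGraph H) (T : Set H) (g : {g : G // g ∉ Subgroup.center G}) :
    g.1 ∈ pre e T ↔ (e g).1 ∈ Subgroup.centralizer T := by
  rw [mem_pre', ← cent_eq e T, Subgroup.mem_centralizer_iff]
  constructor
  · rintro h _ ⟨_, ⟨a, ha, rfl⟩, rfl⟩
    exact (comm_iff e a g).mp (h a ha)
  · intro h a ha
    exact (comm_iff e a g).mpr (h _ ⟨_, ⟨a, ha, rfl⟩, rfl⟩)

/-- Auxiliary statement. -/
theorem pre_anti {G H : Type} [Group G] [Group H]
    (e : ncGraph G ≃g ncGraph H) (T₁ T₂ : Set H) (h : T₁ ⊆ T₂) : pre e T₂ ≤ pre e T₁ := by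
  intro x hx
  rw [mem_pre'] at hx ⊢
  exact fun a ha => hx a (h ha)

/-- Auxiliary statement. -/
theorem pre_insert {G H : Type} [Group G] [Group H]
    (e : ncGraph G ≃g ncGraph H) (T : Set H) (g : {g : G // g ∉ Subgroup.center G}) :
    pre e (T ∪ {(e g).1}) = pre e T ⊓ Subgroup.centralizer {g.1} := by
  ext x
  rw [Subgroup.mem_inf, mem_pre', mem_pre', Subgroup.mem_centralizer_iff]
  constructor
  · intro h
    refine ⟨fun a ha => h a (Or.inl ha), ?_⟩
    intro y hy
    rw [Set.mem_singleton_iff] at hy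
    rw [hy]
    exact h g (Or.inr rfl)
  · rintro ⟨h1, h2⟩ a (ha | ha)
    · exact h1 a ha
    · have h3 : e a = e g := Subtype.ext ha
      have h4 : a = g := e.injective h3
      rw [h4]
      exact h2 g.1 rfl

end Pool.Agent.Helper407.NC

namespace Pool.Agent.Helper407.NC



theorem card_eq_relIndex_h546 {G : Type} [Group G] [Finite G] (A B : Subgroup G) (h : A ≤ B) :
    Nat.card A * A.relIndex B = Nat.card B := by
  have h1 := Subgroup.relIndex_mul_relIndex (⊥ : Subgroup G) A B bot_le h
  rwa [Subgroup.relIndex_bot_left, Subgroup.relIndex_bot_left] at h1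

theorem not_dvd_pre_exp_h546 {G H : Type} [Group G] [Group H] [Finite G] [Finite H]
    (p S : ℕ) (hp : p.Prime) (T₀ T : Set H)
    (hS : (Subgroup.center H).relIndex (Subgroup.centralizer T₀) = p ^ S)
    (hT : T₀ ⊆ T) :
    ∃ s t : ℕ, s + t = S ∧ (Subgroup.center H).relIndex (Subgroup.centralizer T) = p ^ s ∧
      (Subgroup.centralizer T).relIndex (Subgroup.centralizer T₀) = p ^ t := by
  have h1 := Subgroup.relIndex_mul_relIndex (Subgroup.center H) (Subgroup.centralizer T)
    (Subgroup.centralizer T₀) (Subgroup.center_le_centralizer T)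
    (Subgroup.centralizer_le hT)
  rw [hS] at h1
  obtain ⟨s, hs, hs'⟩ := (Nat.dvd_prime_pow hp).1 (Dvd.intro _ h1)
  obtain ⟨t, ht, ht'⟩ := (Nat.dvd_prime_pow hp).1 (Dvd.intro_left _ h1)
  refine ⟨s, t, ?_, hs', ht'⟩
  rw [hs', ht', ← pow_add] at h1
  exact Nat.pow_right_injective hp.two_le h1

/-- in the case `|Z(H)| < |Z(G)|`, no closed subgroup below `C(T₀)` has `p` dividing the
corresponding index in `G`. -/
theorem not_dvd_pre {G H : Type} [Group G] [Group H] [Finite G] [Finite H]
    (e : ncGraph G ≃g ncGraph H)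
    (hlt : Nat.card (Subgroup.center H) < Nat.card (Subgroup.center G))
    (p S : ℕ) (hp : p.Prime) (T₀ T : Set H)
    (hS : (Subgroup.center H).relIndex (Subgroup.centralizer T₀) = p ^ S)
    (hZ : ∀ v ∈ Subgroup.centralizer T₀, (∀ v' ∈ Subgroup.centralizer T₀, v * v' = v' * v) →
      v ∈ Subgroup.center H)
    (hT : T₀ ⊆ T) (h1 : 1 < (Subgroup.center H).relIndex (Subgroup.centralizer T)) :
    ¬ p ∣ (Subgroup.center G).relIndex (pre e T) := by
  intro hdvd
  have hb : 0 < Nat.card (Subgroup.center H) := Nat.card_pos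
  -- center ≤ pre
  have hcp : ∀ T' : Set H, Subgroup.center G ≤ pre e T' := fun T' =>
    Subgroup.center_le_centralizer _
  -- main equation
  have heq : ∀ (T' : Set H) (s : ℕ),
      (Subgroup.center H).relIndex (Subgroup.centralizer T') = p ^ s →
      Nat.card (Subgroup.center G) * (Subgroup.center G).relIndex (pre e T') +
        Nat.card (Subgroup.center H) = Nat.card (Subgroup.center H) * p ^ s +
        Nat.card (Subgroup.center G) := by
    intro T' s hs
    rw [card_eq_relIndex_h546 _ _ (hcp T'), ← hs,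
      card_eq_relIndex_h546 _ _ (Subgroup.center_le_centralizer T')]
    exact pre_card e T'
  obtain ⟨s₀, t₀, hst₀, hs₀, ht₀⟩ := not_dvd_pre_exp_h546 (G := G) p S hp T₀ T hS hT
  have hs₀1 : 1 ≤ s₀ := by
    rcases Nat.eq_zero_or_pos s₀ with h | h
    · subst h
      rw [hs₀] at h1
      simp at h1
    · exact h
  -- a vertex in V is not commuting with all V
  have hkey : ∀ g : {g : G // g ∉ Subgroup.center G}, (e g).1 ∈ Subgroup.centralizer T₀ →
      ¬ (Subgroup.centralizer T₀ ≤ Subgroup.centralizer (T₀ ∪ {(e g).1})) := by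
    intro g hg hle
    apply (e g).2
    apply hZ _ hg
    intro v' hv'
    have h2 := hle hv'
    rw [Subgroup.mem_centralizer_iff] at h2
    exact h2 _ (Or.inr rfl)
  have hmain : ∀ g : ↥(pre e T₀), ¬ p ∣ (Subgroup.centralizer {g}).index := by
    intro g hpg
    by_cases hgc : g.1 ∈ Subgroup.center G
    · have htop : Subgroup.centralizer {g} = ⊤ := by
        rw [eq_top_iff]
        intro y _
        rw [Subgroup.mem_centralizer_iff]
        intro h hh
        rw [Set.mem_singleton_iff] at hh
        subst hh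
        apply Subtype.ext
        exact ((Subgroup.mem_center_iff.1 hgc) y.1).symm
      rw [htop, Subgroup.index_top] at hpg
      exact hp.one_lt.ne' (Nat.dvd_one.1 hpg)
    · have hxV := (mem_pre e T₀ ⟨g.1, hgc⟩).1 g.2
      have hnle := hkey ⟨g.1, hgc⟩ hxV
      obtain ⟨s', t', hst', hs', ht'⟩ := not_dvd_pre_exp_h546 (G := G) p S hp T₀
        (T₀ ∪ {(e ⟨g.1, hgc⟩).1}) hS Set.subset_union_left
      have hs'1 : 1 ≤ s' := by
        rcases Nat.eq_zero_or_pos s' with h | h
        · exfalso
          subst h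
          rw [pow_zero, Subgroup.relIndex_eq_one] at hs'
          apply (e ⟨g.1, hgc⟩).2
          apply hs'
          rw [Subgroup.mem_centralizer_iff]
          intro h hh
          rcases hh with hh | hh
          · exact (Subgroup.mem_centralizer_iff.1 hxV) h hh
          · rw [Set.mem_singleton_iff] at hh
            rw [hh]
        · exact h
      have ht'1 : 1 ≤ t' := by
        rcases Nat.eq_zero_or_pos t' with h | h
        · exfalso
          subst h
          rw [pow_zero, Subgroup.relIndex_eq_one] at ht'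
          exact hnle ht'
        · exact h
      have hE1 := heq _ _ hs'
      have hE2 := heq _ _ hS
      have hE0 := heq _ _ hs₀
      have hle : pre e (T₀ ∪ {(e ⟨g.1, hgc⟩).1}) ≤ pre e T₀ :=
        pre_anti e _ _ Set.subset_union_left
      have hmul := Subgroup.relIndex_mul_relIndex (Subgroup.center G)
        (pre e (T₀ ∪ {(e ⟨g.1, hgc⟩).1})) (pre e T₀) (hcp _) hle
      rw [← hmul, ← hst'] at hE2
      have hι : (Subgroup.centralizer {g}).index =
          (pre e (T₀ ∪ {(e ⟨g.1, hgc⟩).1})).relIndex (pre e T₀) := by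
        rw [Subgroup.relIndex]
        congr 1
        ext y
        rw [Subgroup.mem_subgroupOf, pre_insert, Subgroup.mem_inf,
          Subgroup.mem_centralizer_iff, Subgroup.mem_centralizer_iff]
        constructor
        · intro h
          refine ⟨y.2, ?_⟩
          intro h' hh'
          rw [Set.mem_singleton_iff] at hh'
          subst hh'
          exact congrArg Subtype.val (h g rfl)
        · rintro ⟨-, h⟩ h' hh'
          rw [Set.mem_singleton_iff] at hh'
          subst hh'
          apply Subtype.ext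
          exact h h'.1 rfl
      rw [hι] at hpg
      exact coreC p s' t' _ _ _ _ s₀ _ hp hb hlt hs₀1 hE0 hdvd hs'1 ht'1 hE1 hE2 hpg
  have hnd := not_dvd_index_center p hp hmain
  apply hnd
  have hcen : Subgroup.center ↥(pre e T₀) = (Subgroup.center G).subgroupOf (pre e T₀) := by
    ext g
    rw [Subgroup.mem_subgroupOf]
    constructor
    · intro hg
      by_contra hgc
      have hxV := (mem_pre e T₀ ⟨g.1, hgc⟩).1 g.2
      have hnle := hkey ⟨g.1, hgc⟩ hxV
      have hle : Subgroup.centralizer (T₀ ∪ {(e ⟨g.1, hgc⟩).1}) ≤ Subgroup.centralizer T₀ :=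
        Subgroup.centralizer_le Set.subset_union_left
      have hpe : pre e (T₀ ∪ {(e ⟨g.1, hgc⟩).1}) = pre e T₀ := by
        rw [pre_insert]
        apply inf_eq_left.2
        intro y hy
        rw [Subgroup.mem_centralizer_iff]
        intro h hh
        rw [Set.mem_singleton_iff] at hh
        rw [hh]
        exact (congrArg Subtype.val ((Subgroup.mem_center_iff.1 hg) ⟨y, hy⟩)).symm
      have hc1 := pre_card e (T₀ ∪ {(e ⟨g.1, hgc⟩).1})
      have hc2 := pre_card e T₀
      rw [hpe] at hc1
      have hcc : Nat.card (Subgroup.centralizer (T₀ ∪ {(e ⟨g.1, hgc⟩).1})) =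
          Nat.card (Subgroup.centralizer T₀) := by omega
      apply hnle
      exact (Subgroup.eq_of_le_of_card_ge hle hcc.ge).ge
    · intro hg
      rw [Subgroup.mem_center_iff]
      intro y
      apply Subtype.ext
      exact (Subgroup.mem_center_iff.1 hg) y.1
  rw [hcen]
  have hmul := Subgroup.relIndex_mul_relIndex (Subgroup.center G)
    (pre e T) (pre e T₀) (hcp _) (pre_anti e _ _ hT)
  change p ∣ (Subgroup.center G).relIndex (pre e T₀)
  rw [← hmul]
  exact Dvd.dvd.mul_right hdvd _

end Pool.Agent.Helper407.NC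


namespace Pool.Agent.Helper407.NC

/-- Lagrange for a chain `K ≤ L`. -/
theorem card_mul_rel {G : Type} [Group G] [Finite G] (K L : Subgroup G) (h : K ≤ L) :
    Nat.card K * K.relIndex L = Nat.card L := by
  have h2 := Subgroup.card_mul_index (K.subgroupOf L)
  have h3 : Nat.card (K.subgroupOf L) = Nat.card K :=
    Nat.card_congr (Subgroup.subgroupOfEquivOfLe h).toEquiv
  rw [h3] at h2
  exact h2

/-- In all finite groups with `|G| < |H|`: centralizers grow at least quadratically. -/
theorem pair_small {G H : Type} [Group G] [Group H] [Finite G] [Finite H]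
    (e : ncGraph G ≃g ncGraph H)
    (hlt : Nat.card (Subgroup.center G) < Nat.card (Subgroup.center H)) (T₁ T₂ : Set H)
    (h12 : T₁ ⊆ T₂)
    (h2 : (Subgroup.center H).relIndex (Subgroup.centralizer T₂) <
      (Subgroup.center H).relIndex (Subgroup.centralizer T₁)) :
    (Subgroup.center H).relIndex (Subgroup.centralizer T₂) ^ 2 <
      (Subgroup.center H).relIndex (Subgroup.centralizer T₁) := by
  by_contra hcon
  push Not at hcon
  have hU : Subgroup.centralizer T₂ ≤ Subgroup.centralizer T₁ := Subgroup.centralizer_le h12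
  have cU := card_mul_rel (Subgroup.center H) (Subgroup.centralizer T₂)
    (Subgroup.center_le_centralizer _)
  have hmul : (Subgroup.center H).relIndex (Subgroup.centralizer T₂) *
      (Subgroup.centralizer T₂).relIndex (Subgroup.centralizer T₁) =
      (Subgroup.center H).relIndex (Subgroup.centralizer T₁) :=
    Subgroup.relIndex_mul_relIndex _ _ _ (Subgroup.center_le_centralizer _) hU
  have hUV := card_mul_rel (Subgroup.centralizer T₂) (Subgroup.centralizer T₁) hU
  have p1 := pre_card e T₁
  have p2 := pre_card e T₂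
  set M := (Subgroup.center H).relIndex (Subgroup.centralizer T₂) with hM
  set K := (Subgroup.centralizer T₂).relIndex (Subgroup.centralizer T₁) with hK
  have hM0 : 0 < M := by
    rcases Nat.eq_zero_or_pos M with h | h
    · rw [h, zero_mul] at hmul; rw [← hmul] at h2; omega
    · exact h
  have hK1 : 1 < K := by
    by_contra h
    have : K ≤ 1 := by omega
    have : M * K ≤ M := by nlinarith
    omega
  have hKM : K ≤ M := by
    rw [← hmul, pow_two] at hcon
    exact Nat.le_of_mul_le_mul_left hcon hM0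
  refine coreA _ _ (Nat.card (Subgroup.centralizer T₂)) (Nat.card (Subgroup.centralizer T₁)) K
    (Nat.card (pre e T₂)) (Nat.card (pre e T₁)) Nat.card_pos hlt p2 p1
    (Subgroup.card_dvd_of_le (pre_anti e T₁ T₂ h12)) hUV.symm hK1 ?_
  rw [← cU]
  exact Nat.mul_le_mul_left _ hKM

/-- The other case, below `C(T₀)` with `|C(T₀) : Z(H)|` a power of `p`. -/
theorem pair_large {G H : Type} [Group G] [Group H] [Finite G] [Finite H]
    (e : ncGraph G ≃g ncGraph H)
    (hlt : Nat.card (Subgroup.center H) < Nat.card (Subgroup.center G))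
    (p S : ℕ) (hp : p.Prime) (T₀ T₁ T₂ : Set H)
    (hS : (Subgroup.center H).relIndex (Subgroup.centralizer T₀) = p ^ S)
    (hZ : ∀ v ∈ Subgroup.centralizer T₀, (∀ v' ∈ Subgroup.centralizer T₀, v * v' = v' * v) →
      v ∈ Subgroup.center H)
    (h01 : T₀ ⊆ T₁) (h12 : T₁ ⊆ T₂)
    (h1 : 1 < (Subgroup.center H).relIndex (Subgroup.centralizer T₂))
    (h2 : (Subgroup.center H).relIndex (Subgroup.centralizer T₂) <
      (Subgroup.center H).relIndex (Subgroup.centralizer T₁)) :
    (Subgroup.center H).relIndex (Subgroup.centralizer T₂) ^ 2 <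
      (Subgroup.center H).relIndex (Subgroup.centralizer T₁) := by
  by_contra hcon
  push Not at hcon
  have hU : Subgroup.centralizer T₂ ≤ Subgroup.centralizer T₁ := Subgroup.centralizer_le h12
  have hV : Subgroup.centralizer T₁ ≤ Subgroup.centralizer T₀ := Subgroup.centralizer_le h01
  have cU := card_mul_rel (Subgroup.center H) (Subgroup.centralizer T₂)
    (Subgroup.center_le_centralizer _)
  have cV := card_mul_rel (Subgroup.center H) (Subgroup.centralizer T₁)
    (Subgroup.center_le_centralizer _)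
  have hmul : (Subgroup.center H).relIndex (Subgroup.centralizer T₁) *
      (Subgroup.centralizer T₁).relIndex (Subgroup.centralizer T₀) = p ^ S := by
    rw [← hS]
    exact Subgroup.relIndex_mul_relIndex _ _ _ (Subgroup.center_le_centralizer _) hV
  have hmul2 : (Subgroup.center H).relIndex (Subgroup.centralizer T₂) *
      (Subgroup.centralizer T₂).relIndex (Subgroup.centralizer T₁) =
      (Subgroup.center H).relIndex (Subgroup.centralizer T₁) :=
    Subgroup.relIndex_mul_relIndex _ _ _ (Subgroup.center_le_centralizer _) hU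
  obtain ⟨a, ha, haa⟩ := (Nat.dvd_prime_pow hp).1 (Dvd.intro _ hmul)
  have hd : (Subgroup.center H).relIndex (Subgroup.centralizer T₂) ∣ p ^ a := by
    rw [← haa, ← hmul2]; exact Dvd.intro _ rfl
  obtain ⟨s, hs, hss⟩ := (Nat.dvd_prime_pow hp).1 hd
  have p1 := pre_card e T₁
  have p2 := pre_card e T₂
  have g1 := card_mul_rel (Subgroup.center G) (pre e T₁) (Subgroup.center_le_centralizer _)
  have g2 := card_mul_rel (Subgroup.center G) (pre e T₂) (Subgroup.center_le_centralizer _)
  have hnd := not_dvd_pre e hlt p S hp T₀ T₂ hS hZ (h01.trans h12) h1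
  have hμ : (Subgroup.center G).relIndex (pre e T₂) ∣ (Subgroup.center G).relIndex (pre e T₁) :=
    ⟨_, (Subgroup.relIndex_mul_relIndex _ _ _ (Subgroup.center_le_centralizer _)
      (pre_anti e T₁ T₂ h12)).symm⟩
  rw [hss, haa] at h2 hcon
  rw [hss] at h1 cU
  rw [haa] at cV
  rw [← g1, ← cV] at p1
  rw [← g2, ← cU] at p2
  have hsa : s < a := (Nat.pow_lt_pow_iff_right hp.one_lt).1 h2
  have hs1 : 1 ≤ s := by
    rcases Nat.eq_zero_or_pos s with h | h
    · rw [h] at h1; simp at h1
    · exact h
  rw [← pow_mul] at hcon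
  have has : a ≤ s * 2 := (Nat.pow_le_pow_iff_right hp.one_lt).1 hcon
  exact coreB p s a _ _ _ _ hp Nat.card_pos hlt p2 p1 hμ hs1 hsa (by omega) hnd

end Pool.Agent.Helper407.NC

namespace Pool.Agent.Helper407.NC

theorem nc_split {H : Type} [Group H] [Finite H] (p : ℕ) (hp : p.Prime) (v : H) :
    ∃ a b : ℤ, v = v ^ a * v ^ b ∧ (∃ k : ℕ, orderOf (v ^ a) ∣ p ^ k) ∧ ¬ p ∣ orderOf (v ^ b) := by
  obtain ⟨k, m, hm, hn⟩ := Nat.exists_eq_pow_mul_and_not_dvd (orderOf_pos v).ne' p hp.ne_one
  have hcop : Nat.Coprime m (p ^ k) := ((Nat.Prime.coprime_iff_not_dvd hp).2 hm).symm.pow_right k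
  have hb : (m : ℤ) * Nat.gcdA m (p^k) + ((p^k : ℕ) : ℤ) * Nat.gcdB m (p^k) = 1 := by
    have := Nat.gcd_eq_gcd_ab m (p^k)
    rw [Nat.coprime_iff_gcd_eq_one.1 hcop] at this
    exact_mod_cast this.symm
  refine ⟨m * Nat.gcdA m (p^k), ((p^k : ℕ) : ℤ) * Nat.gcdB m (p^k), ?_, ⟨k, ?_⟩, ?_⟩
  · rw [← zpow_add, hb, zpow_one]
  · rw [orderOf_dvd_iff_pow_eq_one, ← zpow_natCast, ← zpow_mul, ← orderOf_dvd_iff_zpow_eq_one, hn]
    exact ⟨Nat.gcdA m (p^k), by push_cast; ring⟩
  · have h1 : orderOf (v ^ (((p^k : ℕ) : ℤ) * Nat.gcdB m (p^k))) ∣ m := by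
      rw [orderOf_dvd_iff_pow_eq_one, ← zpow_natCast, ← zpow_mul, ← orderOf_dvd_iff_zpow_eq_one, hn]
      exact ⟨Nat.gcdB m (p^k), by push_cast; ring⟩
    exact fun h => hm (h.trans h1)

/-- in a finite nilpotent group elements of coprime orders commute -/
theorem commute_of_coprime {H : Type} [Group H] [Finite H] (hH : Group.IsNilpotent H) (x y : H)
    (h : (orderOf x).Coprime (orderOf y)) : x * y = y * x := by
  have htf := (Group.isNilpotent_of_finite_tfae (G := H)).out 0 4
  obtain ⟨e⟩ := htf.1 hH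
  apply e.symm.injective
  rw [map_mul, map_mul]
  funext p P
  have hpp : Nat.Prime p := Nat.prime_of_mem_primeFactors p.2
  have : Fact (Nat.Prime p) := ⟨hpp⟩
  show e.symm x p P * e.symm y p P = e.symm y p P * e.symm x p P
  have hdx : ∀ z : H, orderOf (e.symm z p P) ∣ orderOf z := by
    intro z
    rw [orderOf_dvd_iff_pow_eq_one]
    have h1 : (e.symm z) ^ orderOf z = 1 := by rw [← map_pow, pow_orderOf_eq_one, map_one]
    have h2 := congrFun (congrFun h1 p) P
    exact h2
  have hPg : IsPGroup p P := P.2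
  obtain ⟨k, hk⟩ := (IsPGroup.iff_orderOf.1 hPg) (e.symm x p P)
  obtain ⟨l, hl⟩ := (IsPGroup.iff_orderOf.1 hPg) (e.symm y p P)
  have hc : Nat.Coprime (orderOf (e.symm x p P)) (orderOf (e.symm y p P)) :=
    Nat.Coprime.of_dvd (hdx x) (hdx y) h
  rcases Nat.eq_zero_or_pos k with hk0 | hk0
  · have : e.symm x p P = 1 := by
      rw [← orderOf_eq_one_iff, hk, hk0, pow_zero]
    rw [this, one_mul, mul_one]
  · rcases Nat.eq_zero_or_pos l with hl0 | hl0
    · have : e.symm y p P = 1 := by
        rw [← orderOf_eq_one_iff, hl, hl0, pow_zero]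
      rw [this, one_mul, mul_one]
    · exfalso
      have h1 : (p : ℕ) ∣ orderOf (e.symm x p P) := by
        rw [hk]; exact dvd_pow_self _ hk0.ne'
      have h2 : (p : ℕ) ∣ orderOf (e.symm y p P) := by
        rw [hl]; exact dvd_pow_self _ hl0.ne'
      exact Nat.not_coprime_of_dvd_of_dvd hpp.one_lt h1 h2 hc

theorem nc_comm {H : Type} [Group H] [Finite H] (hH : Group.IsNilpotent H) (p : ℕ)
    (hp : p.Prime) (u w : H) (hu : ∃ k : ℕ, orderOf u ∣ p ^ k) (hw : ¬ p ∣ orderOf w) :
    u * w = w * u := by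
  obtain ⟨k, hk⟩ := hu
  apply commute_of_coprime hH
  exact Nat.Coprime.coprime_dvd_left hk (Nat.Coprime.pow_left k ((Nat.Prime.coprime_iff_not_dvd hp).2 hw))

theorem nc_memP {H : Type} [Group H] [Finite H] (hH : Group.IsNilpotent H) (p : ℕ)
    (hp : p.Prime) (P : Sylow p H) (u : H) (hu : ∃ k : ℕ, orderOf u ∣ p ^ k) : u ∈ P := by
  have : Fact p.Prime := ⟨hp⟩
  have htf := (Group.isNilpotent_of_finite_tfae (G := H)).out 0 3
  have hn : P.Normal := htf.1 hH p inferInstance P
  obtain ⟨k, hk⟩ := hu
  have hpg : IsPGroup p (Subgroup.zpowers u) := by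
    apply IsPGroup.of_card (n := (Nat.dvd_prime_pow hp).1 hk |>.choose)
    rw [Nat.card_zpowers]
    exact ((Nat.dvd_prime_pow hp).1 hk).choose_spec.2
  obtain ⟨Q, hQ⟩ := hpg.exists_le_sylow
  letI := Sylow.unique_of_normal P hn
  have hQP : Q = P := Subsingleton.elim _ _
  rw [← hQP]
  exact hQ (Subgroup.mem_zpowers u)

theorem nc_Pord {H : Type} [Group H] [Finite H] (p : ℕ)
    (hp : p.Prime) (P : Sylow p H) (u : H) (hu : u ∈ P) : ∃ k : ℕ, orderOf u ∣ p ^ k := by
  have : Fact p.Prime := ⟨hp⟩
  obtain ⟨k, hk⟩ := (IsPGroup.iff_orderOf.1 P.2) (⟨u, hu⟩ : P)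
  refine ⟨k, ?_⟩
  rw [← hk, Subgroup.orderOf_mk]

/-- `C_H(p'-elements and A) / Z(H) ≅ C_P(A) / Z(P)` for a nilpotent group `H`. -/
theorem relIndex_eq {H : Type} [Group H] [Finite H] (hH : Group.IsNilpotent H) (p : ℕ)
    (hp : p.Prime) (P : Sylow p H) (A : Set P) :
    (Subgroup.center H).relIndex
      (Subgroup.centralizer ({h : H | ¬ p ∣ orderOf h} ∪ Subtype.val '' A)) =
    (Subgroup.center P).relIndex (Subgroup.centralizer A) := by
  have hC : Subgroup.centralizer ({h : H | ¬ p ∣ orderOf h} ∪ Subtype.val '' A) =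
      (Subgroup.centralizer A).map (P : Subgroup H).subtype ⊔ Subgroup.center H := by
    apply le_antisymm
    · intro v hv
      obtain ⟨a, b, hab, ha, hb⟩ := nc_split p hp v
      rw [hab]
      refine Subgroup.mul_mem_sup ?_ ?_
      · have huP : v ^ a ∈ P := nc_memP hH p hp P _ ha
        refine ⟨⟨v ^ a, huP⟩, ?_, rfl⟩
        rw [SetLike.mem_coe, Subgroup.mem_centralizer_iff]
        intro g hg
        have h1 : v ^ a ∈ Subgroup.centralizer ({h : H | ¬ p ∣ orderOf h} ∪ Subtype.val '' A) :=
          Subgroup.zpow_mem _ hv a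
        rw [Subgroup.mem_centralizer_iff] at h1
        have h2 := h1 g (Or.inr ⟨g, hg, rfl⟩)
        exact Subtype.ext h2
      · rw [Subgroup.mem_center_iff]
        intro g
        obtain ⟨a', b', hab', ha', hb'⟩ := nc_split p hp g
        have h1 : v ^ b ∈ Subgroup.centralizer ({h : H | ¬ p ∣ orderOf h} ∪ Subtype.val '' A) :=
          Subgroup.zpow_mem _ hv b
        rw [Subgroup.mem_centralizer_iff] at h1
        have h2 := h1 (g ^ b') (Or.inl hb')
        have h3 := nc_comm hH p hp (g ^ a') (v ^ b) ha' hb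
        rw [hab', mul_assoc, h2, ← mul_assoc, h3, mul_assoc]
    · rw [sup_le_iff]
      constructor
      · rintro _ ⟨u, hu, rfl⟩
        rw [SetLike.mem_coe, Subgroup.mem_centralizer_iff] at hu
        rw [Subgroup.mem_centralizer_iff]
        rintro g (hg | ⟨g, hg, rfl⟩)
        · exact (nc_comm hH p hp (u : H) g (nc_Pord p hp P u u.2) hg).symm
        · exact congrArg Subtype.val (hu g hg)
      · exact Subgroup.center_le_centralizer _
  have hZ : (Subgroup.center H).comap (P : Subgroup H).subtype = Subgroup.center P := by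
    ext u
    rw [Subgroup.mem_comap, Subgroup.mem_center_iff, Subgroup.mem_center_iff]
    constructor
    · intro h g
      exact Subtype.ext (h g)
    · intro h g
      obtain ⟨a', b', hab', ha', hb'⟩ := nc_split p hp g
      have hgP : g ^ a' ∈ P := nc_memP hH p hp P _ ha'
      have h2 : g ^ a' * (u : H) = u * g ^ a' := congrArg Subtype.val (h ⟨_, hgP⟩)
      have h3 := nc_comm hH p hp (u : H) (g ^ b') (nc_Pord p hp P u u.2) hb'
      show g * (u : H) = u * g
      rw [hab', mul_assoc, ← h3, ← mul_assoc, h2, mul_assoc]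
  rw [hC, Subgroup.relIndex_sup_right, ← Subgroup.relIndex_comap, hZ]

/-- Auxiliary statement. -/
theorem center_eq {H : Type} [Group H] [Finite H] (hH : Group.IsNilpotent H) (p : ℕ)
    (hp : p.Prime) (v : H) (hv : v ∈ Subgroup.centralizer {h : H | ¬ p ∣ orderOf h})
    (h : ∀ v' ∈ Subgroup.centralizer {h : H | ¬ p ∣ orderOf h}, v * v' = v' * v) :
    v ∈ Subgroup.center H := by
  rw [Subgroup.mem_center_iff]
  intro g
  obtain ⟨a', b', hab', ha', hb'⟩ := nc_split p hp g
  rw [Subgroup.mem_centralizer_iff] at hv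
  have h1 : g ^ a' ∈ Subgroup.centralizer {h : H | ¬ p ∣ orderOf h} := by
    rw [Subgroup.mem_centralizer_iff]
    intro w hw
    exact (nc_comm hH p hp _ w ha' hw).symm
  have h2 := h _ h1
  have h3 := hv (g ^ b') hb'
  rw [hab', mul_assoc, h3, ← mul_assoc, ← h2, mul_assoc]

end Pool.Agent.Helper407.NC

namespace Pool.Agent.Helper407.NC



/-- for equal orders the non-commuting graph of a nilpotent group forces nilpotency. -/
theorem nilpotent_of_card_eq {G H : Type} [Group G] [Group H] [Finite G] [Finite H]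
    (e : ncGraph G ≃g ncGraph H) (hH : Group.IsNilpotent H) (hc : Nat.card G = Nat.card H) :
    Group.IsNilpotent G := by
  classical
  -- equal centres
  have hz : Nat.card (Subgroup.center G) = Nat.card (Subgroup.center H) := by
    have h0 := pre_card e (∅ : Set H)
    have h1 : pre e (∅ : Set H) = ⊤ := by
      rw [eq_top_iff]
      intro g _
      unfold pre
      rw [Subgroup.mem_centralizer_iff]
      rintro h ⟨x, hx, -⟩
      exact absurd hx (Set.notMem_empty _)
    have h2 : Subgroup.centralizer (∅ : Set H) = ⊤ := by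
      rw [eq_top_iff]
      intro g _
      rw [Subgroup.mem_centralizer_iff]
      intro h hh
      exact absurd hh (Set.notMem_empty _)
    rw [h1, h2, Subgroup.card_top, Subgroup.card_top] at h0
    omega
  have hcard : ∀ T : Set H, Nat.card (pre e T) = Nat.card (Subgroup.centralizer T) := by
    intro T
    have := pre_card e T
    omega
  -- commuting in `H`
  have hcomm : ∀ p q : ℕ, p.Prime → q.Prime → p ≠ q →
      ∀ x ∈ Subgroup.centralizer {h : H | ¬ p ∣ orderOf h},
      ∀ y ∈ Subgroup.centralizer {h : H | ¬ q ∣ orderOf h}, x * y = y * x := by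
    intro p q hp hq hpq x hx y hy
    rw [Subgroup.mem_centralizer_iff] at hx
    obtain ⟨u, hu, v, hv, huv, ⟨k, hk⟩, hqv⟩ := exists_parts y q hq
    have h1 : u * x = x * u := by
      apply hx
      show ¬ p ∣ orderOf u
      rw [hk]
      intro hd
      exact hpq ((Nat.prime_dvd_prime_iff_eq hp hq).1 (hp.dvd_of_dvd_pow hd))
    have hvV : v ∈ Subgroup.centralizer {h : H | ¬ q ∣ orderOf h} := by
      exact (Subgroup.zpowers_le.2 hy) hv
    rw [Subgroup.mem_centralizer_iff] at hvV
    have h2 : v * x = x * v := by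
      obtain ⟨a, -, b, -, hab, ⟨l, hl⟩, hqb⟩ := exists_parts x q hq
      have h3 : b * v = v * b := hvV b hqb
      have h4 : a * v = v * a := by
        apply commute_of_coprime hH
        rw [hl]
        exact Nat.Coprime.pow_left l ((Nat.Prime.coprime_iff_not_dvd hq).2 hqv)
      rw [hab, mul_assoc, h3, ← mul_assoc, ← mul_assoc, h4]
    rw [huv, ← mul_assoc, ← h1, mul_assoc, ← h2, mul_assoc]
  -- commuting in `G`
  have hcommG : ∀ p q : ℕ, p.Prime → q.Prime → p ≠ q →
      ∀ x ∈ pre e {h : H | ¬ p ∣ orderOf h},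
      ∀ y ∈ pre e {h : H | ¬ q ∣ orderOf h}, x * y = y * x := by
    intro p q hp hq hpq x hx y hy
    by_cases hxc : x ∈ Subgroup.center G
    · exact ((Subgroup.mem_center_iff.1 hxc) y).symm
    by_cases hyc : y ∈ Subgroup.center G
    · exact (Subgroup.mem_center_iff.1 hyc) x
    have h1 := (mem_pre e _ ⟨x, hxc⟩).1 hx
    have h2 := (mem_pre e _ ⟨y, hyc⟩).1 hy
    have h3 := hcomm p q hp hq hpq _ h1 _ h2
    by_contra hne
    have hadj : (ncGraph G).Adj ⟨x, hxc⟩ ⟨y, hyc⟩ := by
      unfold ncGraph
      rw [SimpleGraph.fromRel_adj]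
      refine ⟨?_, Or.inl hne⟩
      intro heq
      have : x = y := congrArg Subtype.val heq
      exact hne (by rw [this])
    have hadj' := e.map_adj_iff.2 hadj
    unfold ncGraph at hadj'
    rw [SimpleGraph.fromRel_adj] at hadj'
    rcases hadj'.2 with h | h
    · exact h h3
    · exact h h3.symm
  -- Sylow subgroups inside `pre`
  have hsyl : ∀ (p : ℕ) (_ : Fact p.Prime), ∃ Q : Subgroup G,
      Nat.card Q = p ^ (Nat.card G).factorization p ∧ Q ≤ pre e {h : H | ¬ p ∣ orderOf h} := by
    intro p hp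
    obtain ⟨P⟩ : Nonempty (Sylow p H) := inferInstance
    have h1 : (P : Subgroup H) ≤ Subgroup.centralizer {h : H | ¬ p ∣ orderOf h} := by
      intro x hx
      rw [Subgroup.mem_centralizer_iff]
      intro h hh
      apply commute_of_coprime hH
      obtain ⟨k, hk⟩ := (IsPGroup.iff_orderOf.1 P.isPGroup') ⟨x, hx⟩
      rw [Subgroup.orderOf_mk] at hk
      rw [hk]
      exact Nat.Coprime.pow_right k
        (Nat.coprime_comm.1 ((Nat.Prime.coprime_iff_not_dvd hp.out).2 hh))
    have h2 := Subgroup.card_dvd_of_le h1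
    rw [Sylow.card_eq_multiplicity, ← hcard, ← hc] at h2
    obtain ⟨K, hK⟩ := Sylow.exists_subgroup_card_pow_prime p h2
    refine ⟨K.map (pre e {h : H | ¬ p ∣ orderOf h}).subtype, ?_, ?_⟩
    · rw [Subgroup.card_map_of_injective (Subgroup.subtype_injective _), hK]
    · rintro _ ⟨x, -, rfl⟩
      exact x.2
  choose Q hQ1 hQ2 using hsyl
  have hnormal : ∀ (p : ℕ) (hp : Fact p.Prime), (Q p hp).Normal := by
    intro p hp
    rw [← Subgroup.normalizer_eq_top_iff]
    apply Subgroup.eq_top_of_card_eq
    have hdvd : Nat.card G ∣ Nat.card (Subgroup.normalizer (Q p hp : Set G)) := by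
      rw [← Nat.factorization_prime_le_iff_dvd Nat.card_pos.ne' Nat.card_pos.ne']
      intro q hq
      rw [← Nat.Prime.pow_dvd_iff_le_factorization hq Nat.card_pos.ne']
      haveI hq' : Fact q.Prime := ⟨hq⟩
      rw [← hQ1 q hq']
      apply Subgroup.card_dvd_of_le
      by_cases hpq : q = p
      · subst hpq
        exact Subgroup.le_normalizer
      · intro g hg
        rw [Subgroup.mem_normalizer_iff]
        have hcm : ∀ k ∈ Q p hp, g * k = k * g := fun k hk =>
          hcommG q p hq hp.out hpq g (hQ2 q hq' hg) k (hQ2 p hp hk)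
        intro k
        constructor
        · intro hk
          rw [hcm k hk, mul_inv_cancel_right]
          exact hk
        · intro hk
          have h5 := hcm _ hk
          have h6 : g * k * g⁻¹ = k := by
            have h7 : g * (g * k * g⁻¹) = g * k := by rw [h5]; group
            exact mul_left_cancel h7
          rwa [h6] at hk
    exact le_antisymm (Subgroup.card_le_card_group _) (Nat.le_of_dvd Nat.card_pos hdvd)
  refine (Group.isNilpotent_of_finite_tfae.out 0 3).2 ?_
  intro p hp R
  have hn : ((Sylow.ofCard (Q p hp) (hQ1 p hp) : Sylow p G) : Subgroup G).Normal := by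
    rw [Sylow.coe_ofCard]
    exact hnormal p hp
  haveI := Sylow.unique_of_normal _ hn
  have : R = Sylow.ofCard (Q p hp) (hQ1 p hp) := Subsingleton.elim _ _
  rw [this]
  exact hn

end Pool.Agent.Helper407.NC
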