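import Mathlib
import Pool.Agent.Helper407.NC.Core
import Pool.Agent.Helper407.NC.Ito
import Pool.Agent.Helper407.NC.Pair
set_option autoImplicit false
namespace Pool.Agent.Helper407.NC

/-- Numbers of `{h | ¬ p ∣ orderOf h} ∪ A`. -/
def TA {H : Type} [Group H] (p : ℕ) (P : Subgroup H) (A : Set P) : Set H :=
  {h : H | ¬ p ∣ orderOf h} ∪ Subtype.val '' A

theorem TA_mono {H : Type} [Group H] (p : ℕ) (P : Subgroup H) {A B : Set P} (h : A ⊆ B) :
    TA p P A ⊆ TA p P B :=
  Set.union_subset_union_right _ (Set.image_mono h)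

theorem TA_empty {H : Type} [Group H] (p : ℕ) (P : Subgroup H) :
    TA p P ∅ = {h : H | ¬ p ∣ orderOf h} := by
  simp [TA]

/-- Main case. -/
theorem nil_pair {G H : Type} [Group G] [Group H] [Finite G] [Finite H]
    (e : ncGraph G ≃g ncGraph H) (hH : Group.IsNilpotent H) (p : ℕ) (hp : p.Prime)
    (P : Sylow p H) (A B : Set P) (hAB : A ⊆ B)
    (h1 : 1 < (Subgroup.center P).relIndex (Subgroup.centralizer B))
    (h2 : (Subgroup.center P).relIndex (Subgroup.centralizer B) <
      (Subgroup.center P).relIndex (Subgroup.centralizer A))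
    (h3 : (Subgroup.center P).relIndex (Subgroup.centralizer A) ≤
      (Subgroup.center P).relIndex (Subgroup.centralizer B) ^ 2) :
    Nat.card G = Nat.card H ∧ Group.IsNilpotent G := by
  have hcard : Nat.card G = Nat.card H := by
    have q1 := pre_card e (∅ : Set H)
    have e1 : pre e (∅ : Set H) = ⊤ := by
      simp [pre]
    have e2 : Subgroup.centralizer (∅ : Set H) = ⊤ := by simp
    rw [e1, e2, Subgroup.card_top, Subgroup.card_top] at q1
    have rA := relIndex_eq hH p hp P A
    have rB := relIndex_eq hH p hp P B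
    have r0 := relIndex_eq hH p hp P (∅ : Set P)
    have hsub : TA p (P : Subgroup H) A ⊆ TA p (P : Subgroup H) B := TA_mono p _ hAB
    have hsub0 : {h : H | ¬ p ∣ orderOf h} ⊆ TA p (P : Subgroup H) A := Set.subset_union_left
    have h2' : (Subgroup.center H).relIndex (Subgroup.centralizer (TA p (P : Subgroup H) B)) <
      (Subgroup.center H).relIndex (Subgroup.centralizer (TA p (P : Subgroup H) A)) := by
      unfold TA; rw [rA, rB]; exact h2
    have h1' : 1 < (Subgroup.center H).relIndex
        (Subgroup.centralizer (TA p (P : Subgroup H) B)) := by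
      unfold TA; rw [rB]; exact h1
    have h3' : (Subgroup.center H).relIndex (Subgroup.centralizer (TA p (P : Subgroup H) A)) ≤
      (Subgroup.center H).relIndex (Subgroup.centralizer (TA p (P : Subgroup H) B)) ^ 2 := by
      unfold TA; rw [rA, rB]; exact h3
    rcases lt_trichotomy (Nat.card (Subgroup.center G)) (Nat.card (Subgroup.center H)) with
      h | h | h
    · exact absurd h3' (not_le.2 (pair_small e h _ _ hsub h2'))
    · omega
    · obtain ⟨S, hS⟩ : ∃ S : ℕ, (Subgroup.center H).relIndex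
          (Subgroup.centralizer {h : H | ¬ p ∣ orderOf h}) = p ^ S := by
        have hT : {h : H | ¬ p ∣ orderOf h} ∪ Subtype.val '' (∅ : Set P) =
          {h : H | ¬ p ∣ orderOf h} := by simp
        rw [hT] at r0
        rw [r0]
        have hP : ∃ n, Nat.card P = p ^ n := by
          haveI : Fact p.Prime := ⟨hp⟩
          exact (IsPGroup.iff_card).1 P.isPGroup'
        obtain ⟨n, hn⟩ := hP
        have hd : (Subgroup.center P).relIndex (Subgroup.centralizer (∅ : Set P)) ∣ p ^ n := by
          rw [← hn]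
          have e3 : Subgroup.centralizer (∅ : Set P) = ⊤ := by simp
          rw [e3, Subgroup.relIndex_top_right]
          exact Subgroup.index_dvd_card _
        obtain ⟨S, _, hS⟩ := (Nat.dvd_prime_pow hp).1 hd
        exact ⟨S, hS⟩
      exact absurd h3' (not_le.2 (pair_large e h p S hp _ _ _ hS
        (fun v hv hv' => center_eq hH p hp v hv hv') hsub0 hsub h1' h2'))
  exact ⟨hcard, nilpotent_of_card_eq e hH hcard⟩

/-- A single element. -/
theorem nil_single {G H : Type} [Group G] [Group H] [Finite G] [Finite H]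
    (e : ncGraph G ≃g ncGraph H) (hH : Group.IsNilpotent H) (p : ℕ) (hp : p.Prime)
    (P : Sylow p H) (x : P) (hx : x ∉ Subgroup.center P)
    (h : (Subgroup.centralizer {x}).index ^ 2 ≤ (Subgroup.center P).index) :
    Nat.card G = Nat.card H ∧ Group.IsNilpotent G := by
  obtain ⟨n, hn⟩ : ∃ n, Nat.card P = p ^ n := by
    haveI : Fact p.Prime := ⟨hp⟩
    exact (IsPGroup.iff_card).1 P.isPGroup'
  obtain ⟨S, _, hS⟩ := (Nat.dvd_prime_pow hp).1 (hn ▸ Subgroup.index_dvd_card (Subgroup.center P))
  obtain ⟨s, t, hs, ht, hst, hc, hi⟩ := exponents p S hp hS x hx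
  have hr := card_mul_rel (Subgroup.center P) (Subgroup.centralizer {x})
    (Subgroup.center_le_centralizer _)
  rw [hc] at hr
  have hr' : (Subgroup.center P).relIndex (Subgroup.centralizer {x}) = p ^ s :=
    Nat.eq_of_mul_eq_mul_left Nat.card_pos hr
  have e3 : Subgroup.centralizer (∅ : Set P) = ⊤ := by simp
  have h0 : (Subgroup.center P).relIndex (Subgroup.centralizer (∅ : Set P)) = p ^ S := by
    rw [e3, Subgroup.relIndex_top_right]; exact hS
  rw [hi, hS, ← pow_mul] at h
  have hts : t * 2 ≤ S := (Nat.pow_le_pow_iff_right hp.one_lt).1 h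
  refine nil_pair e hH p hp P ∅ {x} (Set.empty_subset _) ?_ ?_ ?_
  · rw [hr']; exact Nat.one_lt_pow (by omega) hp.one_lt
  · rw [hr', h0]; exact Nat.pow_lt_pow_right hp.one_lt (by omega)
  · rw [hr', h0, ← pow_mul]; exact Nat.pow_le_pow_right hp.pos (by omega)

/-- The numbers of elements of order dividing `p` in the centre. -/
theorem nil_omega {G H : Type} [Group G] [Group H] [Finite G] [Finite H]
    (e : ncGraph G ≃g ncGraph H) (hH : Group.IsNilpotent H) (p : ℕ) (hp : p.Prime)
    (P : Sylow p H) (hP : ∃ a b : P, a * b ≠ b * a)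
    (h : Nat.card {z : P // z ∈ Subgroup.center P ∧ z ^ p = 1} ^ 2 ≤
      (Subgroup.center P).index) :
    Nat.card G = Nat.card H ∧ Group.IsNilpotent G := by
  obtain ⟨n, hn⟩ : ∃ n, Nat.card P = p ^ n := by
    haveI : Fact p.Prime := ⟨hp⟩
    exact (IsPGroup.iff_card).1 P.isPGroup'
  obtain ⟨S, _, hS⟩ := (Nat.dvd_prime_pow hp).1 (hn ▸ Subgroup.index_dvd_card (Subgroup.center P))
  obtain ⟨x, hx, hxi⟩ := exists_small_class p S hp hP hS
  exact nil_single e hH p hp P x hx ((Nat.pow_le_pow_left hxi 2).trans h)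

theorem nil_cyclic {G H : Type} [Group G] [Group H] [Finite G] [Finite H]
    (e : ncGraph G ≃g ncGraph H) (hH : Group.IsNilpotent H) (p : ℕ) (hp : p.Prime)
    (P : Sylow p H) (hP : ∃ a b : P, a * b ≠ b * a)
    (h : Nat.card {z : P // z ∈ Subgroup.center P ∧ z ^ p = 1} ≤ p) :
    Nat.card G = Nat.card H ∧ Group.IsNilpotent G := by
  obtain ⟨n, hn⟩ : ∃ n, Nat.card P = p ^ n := by
    haveI : Fact p.Prime := ⟨hp⟩
    exact (IsPGroup.iff_card).1 P.isPGroup'
  obtain ⟨S, _, hS⟩ := (Nat.dvd_prime_pow hp).1 (hn ▸ Subgroup.index_dvd_card (Subgroup.center P))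
  obtain ⟨x, hx, hxi⟩ := exists_small_class p S hp hP hS
  obtain ⟨s, t, hs, ht, hst, hc, hi⟩ := exponents p S hp hS x hx
  refine nil_omega e hH p hp P hP ((Nat.pow_le_pow_left h 2).trans ?_)
  rw [hS]
  exact Nat.pow_le_pow_right hp.pos (by omega)

theorem nil_cube {G H : Type} [Group G] [Group H] [Finite G] [Finite H]
    (e : ncGraph G ≃g ncGraph H) (hH : Group.IsNilpotent H) (p : ℕ) (hp : p.Prime)
    (P : Sylow p H) (hP : ∃ a b : P, a * b ≠ b * a)
    (h : Nat.card (Subgroup.center P) ^ 3 ≤ Nat.card P) :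
    Nat.card G = Nat.card H ∧ Group.IsNilpotent G := by
  refine nil_omega e hH p hp P hP ?_
  have h1 : Nat.card {z : P // z ∈ Subgroup.center P ∧ z ^ p = 1} ≤
      Nat.card (Subgroup.center P) :=
    Nat.card_le_card_of_injective
      (fun z : {z : P // z ∈ Subgroup.center P ∧ z ^ p = 1} =>
        (⟨z.1, z.2.1⟩ : Subgroup.center P)) (by
        intro a b hab
        exact Subtype.ext (congrArg (fun w : Subgroup.center P => (w : P)) hab))
  have h2 := Subgroup.card_mul_index (Subgroup.center P)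
  have hpos : 0 < Nat.card (Subgroup.center P) := Nat.card_pos
  have h3 : Nat.card (Subgroup.center P) ^ 2 ≤ (Subgroup.center P).index := by
    have : Nat.card (Subgroup.center P) * Nat.card (Subgroup.center P) ^ 2 ≤
        Nat.card (Subgroup.center P) * (Subgroup.center P).index := by
      rw [h2]; calc _ = Nat.card (Subgroup.center P) ^ 3 := by ring
        _ ≤ _ := h
    exact Nat.le_of_mul_le_mul_left this hpos
  exact (Nat.pow_le_pow_left h1 2).trans h3

/-- `|H : Z(H)| ≤ p ^ 4`. -/
theorem small_index {G H : Type} [Group G] [Group H] [Finite G] [Finite H]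
    (e : ncGraph G ≃g ncGraph H) (p S : ℕ) (hp : p.Prime) (hS4 : S ≤ 4)
    (hS : (Subgroup.center H).index = p ^ S) : Group.IsNilpotent G := by
  by_cases hex : ∃ x : H, x ∉ Subgroup.center H ∧
      (Subgroup.centralizer {x}).index ^ 2 ≤ (Subgroup.center H).index
  · obtain ⟨x, hx, hc⟩ := hex
    exact (card_eq_of e p S hp hS x hx hc).2
  push Not at hex
  apply ito
  have key : ∀ x : H, x ∉ Subgroup.center H → Nat.card (Subgroup.centralizer {x}) =
      Nat.card (Subgroup.center H) * p := by
    intro x hx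
    obtain ⟨s, t, hs, ht, hst, hc, hi⟩ := exponents p S hp hS x hx
    have h1 := hex x hx
    rw [hi, hS, ← pow_mul] at h1
    have h2 : S < t * 2 := (Nat.pow_lt_pow_iff_right hp.one_lt).1 h1
    have h3 : s = 1 := by omega
    rw [hc, h3, pow_one]
  intro x y hx hy
  have h1 := (card_eqs e).2 ⟨x, hx⟩
  have h2 := (card_eqs e).2 ⟨y, hy⟩
  rw [key _ (e ⟨x, hx⟩).2] at h1
  rw [key _ (e ⟨y, hy⟩).2] at h2
  simp only at h1 h2
  omega

end Pool.Agent.Helper407.NC
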