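import Mathlib
import Pool.Agent.Helper407.NC.Core
import Pool.Agent.Helper407.NC.Ito
import Pool.Agent.Helper407.NC.Pair
set_option autoImplicit false

namespace Pool.Agent.Helper407.NC

/-- Auxiliary statement. -/
theorem coreB' (z b μ ν M K : ℕ) (hb : 0 < b) (hzb : b < z)
    (h1 : z * μ + b = b * M + z) (h2 : z * ν + b = b * (M * K) + z)
    (hd : μ ∣ ν) (hK : 1 < K) (hKM : K ≤ M) (hcop : Nat.Coprime μ M) : False := by
  have hz : 0 < z := by omega
  have hμ : μ ≠ 0 := by
    rintro rfl
    have : b * 1 ≤ b * M := Nat.mul_le_mul_left b (by omega)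
    omega
  have hν : ν ≠ 0 := by
    rintro rfl
    have : b * 1 ≤ b * (M * K) := Nat.mul_le_mul_left b (Nat.mul_pos (by omega) (by omega))
    omega
  obtain ⟨m, rfl⟩ := Nat.exists_eq_succ_of_ne_zero hμ
  obtain ⟨n, rfl⟩ := Nat.exists_eq_succ_of_ne_zero hν
  obtain ⟨M', rfl⟩ := Nat.exists_eq_add_of_le (show 1 ≤ M by omega)
  obtain ⟨K', rfl⟩ := Nat.exists_eq_add_of_le (show 1 ≤ K by omega)
  have hM' : 0 < M' := by omega
  have hK' : 0 < K' := by omega
  -- z m = b M', z n = b (M' + K' + M' K')
  have e1 : z * m = b * M' := by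
    have : z * (m + 1) + b = b * (1 + M') + z := h1
    nlinarith
  have e2 : z * n = b * (M' + (1 + M') * K') := by
    have : z * (n + 1) + b = b * ((1 + M') * (1 + K')) + z := h2
    nlinarith
  set g := Nat.gcd M' (M' + (1 + M') * K') with hg
  have hgpos : 0 < g := Nat.gcd_pos_of_pos_left _ hM'
  have hzd : z ∣ b * g := by
    rw [hg, ← Nat.gcd_mul_left]
    exact Nat.dvd_gcd ⟨m, e1.symm⟩ ⟨n, e2.symm⟩
  obtain ⟨w, hw⟩ := hzd
  have hwpos : 0 < w := by
    rcases Nat.eq_zero_or_pos w with h | h
    · subst h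
      have := Nat.mul_pos hb hgpos
      simp at hw
      omega
    · exact h
  obtain ⟨A, hA⟩ : g ∣ M' := Nat.gcd_dvd_left _ _
  have hg2 : g ∣ M' + (1 + M') * K' := Nat.gcd_dvd_right _ _
  have hgK : g ∣ (1 + M') * K' := (Nat.dvd_add_right ⟨A, hA⟩).1 hg2
  have hgc : Nat.Coprime g (1 + M') := by
    rw [hA]
    simp
  have hgK' : g ∣ K' := hgc.dvd_of_dvd_mul_left hgK
  obtain ⟨k, hk⟩ := hgK'
  have hkpos : 0 < k := by
    rcases Nat.eq_zero_or_pos k with h | h
    · subst h
      omega
    · exact h
  have hm : m = w * A := by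
    apply Nat.eq_of_mul_eq_mul_left hz
    rw [e1, hA, ← mul_assoc, hw]
    ring
  have hn : n = m + w * ((1 + M') * k) := by
    apply Nat.eq_of_mul_eq_mul_left hz
    have : z * (m + w * ((1 + M') * k)) = b * M' + (z * w) * ((1 + M') * k) := by
      rw [← e1]; ring
    rw [this, ← hw, e2]
    have hk2 : (1 + M') * K' = g * ((1 + M') * k) := by rw [hk]; ring
    rw [hk2]
    ring
  have hdvd : m + 1 ∣ w * ((1 + M') * k) := by
    have h3 : n.succ = (m + 1) + w * ((1 + M') * k) := by
      rw [hn]; simp only [Nat.succ_eq_add_one]; ring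
    rw [h3] at hd
    exact (Nat.dvd_add_right (dvd_refl (m + 1))).1 hd
  have hcw : Nat.Coprime (m + 1) w := by
    rw [hm]
    simp
  have hdvd2 : m + 1 ∣ (1 + M') * k := hcw.dvd_of_dvd_mul_left hdvd
  have hdvd3 : m + 1 ∣ k := Nat.Coprime.dvd_of_dvd_mul_left hcop hdvd2
  have hle : m + 1 ≤ k := Nat.le_of_dvd hkpos hdvd3
  have hkA : k ≤ A := by
    have : g * k ≤ g * A := by rw [← hk, ← hA]; omega
    exact Nat.le_of_mul_le_mul_left this hgpos
  have hwA : A ≤ w * A := Nat.le_mul_of_pos_left A hwpos
  omega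

/-- Auxiliary statement. -/
theorem coreD (r z b μ μ' M M' : ℕ) (hr : r.Prime) (hb : 0 < b) (hz : 0 < z)
    (h1 : z * μ + b = b * M + z) (h2 : z * μ' + b = b * M' + z)
    (hμ : r ∣ μ) (hM : r ∣ M) (hM' : r ∣ M') : r ∣ μ' := by
  obtain ⟨z1, b1, hc, hz1, hb1⟩ := Nat.exists_coprime z b
  have hd : 0 < Nat.gcd z b := Nat.gcd_pos_of_pos_left _ hz
  set d := Nat.gcd z b with hdd
  have k1 : z1 * μ + b1 = b1 * M + z1 := by
    apply Nat.eq_of_mul_eq_mul_left hd
    have : z1 * d * μ + b1 * d = b1 * d * M + z1 * d := by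
      rw [← hz1, ← hb1]; exact h1
    linarith
  have k2 : z1 * μ' + b1 = b1 * M' + z1 := by
    apply Nat.eq_of_mul_eq_mul_left hd
    have : z1 * d * μ' + b1 * d = b1 * d * M' + z1 * d := by
      rw [← hz1, ← hb1]; exact h2
    linarith
  have j1 : (r : ℤ) ∣ (z1 : ℤ) - b1 := by
    have e : (z1 : ℤ) - b1 = z1 * μ - b1 * M := by
      have : (z1 : ℤ) * μ + b1 = b1 * M + z1 := by exact_mod_cast k1
      linarith
    rw [e]
    apply dvd_sub
    · exact Dvd.dvd.mul_left (by exact_mod_cast hμ) _
    · exact Dvd.dvd.mul_left (by exact_mod_cast hM) _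
  have j2 : ¬ r ∣ z1 := by
    intro h
    have hzz : (r : ℤ) ∣ (z1 : ℤ) := by exact_mod_cast h
    have hbb : (r : ℤ) ∣ (b1 : ℤ) := by
      have := dvd_sub hzz j1
      simpa using this
    have hbb' : r ∣ b1 := by exact_mod_cast hbb
    have := Nat.dvd_gcd h hbb'
    rw [hc.gcd_eq_one] at this
    exact hr.one_lt.ne' (Nat.dvd_one.1 this)
  have j3 : (r : ℤ) ∣ (z1 : ℤ) * μ' := by
    have e : (z1 : ℤ) * μ' = b1 * M' + ((z1 : ℤ) - b1) := by
      have : (z1 : ℤ) * μ' + b1 = b1 * M' + z1 := by exact_mod_cast k2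
      linarith
    rw [e]
    apply dvd_add _ j1
    exact Dvd.dvd.mul_left (by exact_mod_cast hM') _
  have j4 : r ∣ z1 * μ' := by exact_mod_cast j3
  exact (hr.dvd_mul.1 j4).resolve_left j2

end Pool.Agent.Helper407.NC

namespace Pool.Agent.Helper407.NC

theorem exists_small_aux {H : Type} [Group H] [Finite H] (hH : Group.IsNilpotent H)
    (p : ℕ) (hp : p.Prime) (hpd : p ∣ (Subgroup.center H).index)
    (hle : (p ^ (Subgroup.center H).index.factorization p) ^ 2 ≤ (Subgroup.center H).index) :
    ∃ x : H, x ∉ Subgroup.center H ∧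
      (Subgroup.centralizer {x}).index ^ 2 ≤ (Subgroup.center H).index := by
  have hN0 : (Subgroup.center H).index ≠ 0 := Subgroup.index_ne_zero_of_finite
  obtain ⟨x, _, hxc, k, hk⟩ := exists_qelt p hp (⊤ : Subgroup H) le_top
    (by rwa [Subgroup.relIndex_top_right])
  refine ⟨x, hxc, ?_⟩
  have hcl : Subgroup.center H ≤ Subgroup.centralizer {x} := Subgroup.center_le_centralizer _
  have hdvd : (Subgroup.centralizer {x}).index ∣ (Subgroup.center H).index :=
    Subgroup.index_dvd_of_le hcl
  have hC0 : (Subgroup.centralizer {x}).index ≠ 0 := Subgroup.index_ne_zero_of_finite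
  have huniq : ∀ {r : ℕ}, r.Prime → r ∣ (Subgroup.centralizer {x}).index → r = p := by
    intro r hr hrd
    by_contra hne
    have : Fact r.Prime := ⟨hr⟩
    let R : Sylow r H := default
    have hRC : (R : Subgroup H) ≤ Subgroup.centralizer {x} := by
      intro y hy
      rw [Subgroup.mem_centralizer_singleton_iff]
      obtain ⟨j, hj⟩ := (IsPGroup.iff_orderOf.1 R.isPGroup') ⟨y, hy⟩
      have hoy : orderOf y = r ^ j := by
        rw [← hj, ← Subgroup.orderOf_coe]
      have hcop : (orderOf x).Coprime (orderOf y) := by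
        rw [hk, hoy]
        exact Nat.Coprime.pow _ _ ((Nat.coprime_primes hp hr).2 (fun e => hne e.symm))
      have := commute_of_coprime hH x y hcop
      first
      | exact this
      | exact this.symm
    have h1 : (Subgroup.centralizer {x}).index ∣ (R : Subgroup H).index :=
      Subgroup.index_dvd_of_le hRC
    exact R.not_dvd_index (hrd.trans h1)
  have hpow := Nat.eq_prime_pow_of_unique_prime_dvd hC0 huniq
  have h2 : (Subgroup.centralizer {x}).index ≤ p ^ (Subgroup.center H).index.factorization p := by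
    rw [hpow]
    refine Nat.pow_le_pow_right hp.pos ?_
    rw [← hp.pow_dvd_iff_le_factorization hN0, ← hpow]
    exact hdvd
  exact (Nat.pow_le_pow_left h2 2).trans hle

/-- if `|H : Z(H)|` is not a prime power there is a small noncentral class -/
theorem exists_small_of_not_pp {H : Type} [Group H] [Finite H] (hH : Group.IsNilpotent H)
    (hn : ∀ p S : ℕ, p.Prime → (Subgroup.center H).index ≠ p ^ S) :
    ∃ x : H, x ∉ Subgroup.center H ∧
      (Subgroup.centralizer {x}).index ^ 2 ≤ (Subgroup.center H).index := by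
  have hN0 : (Subgroup.center H).index ≠ 0 := Subgroup.index_ne_zero_of_finite
  have hN1 : (Subgroup.center H).index ≠ 1 := by
    have := hn 2 0 Nat.prime_two
    simpa using this
  obtain ⟨p1, hp1, hd1⟩ := Nat.exists_prime_and_dvd hN1
  have hex : ∃ p2 : ℕ, p2.Prime ∧ p2 ∣ (Subgroup.center H).index ∧ p2 ≠ p1 := by
    by_contra hcon
    push Not at hcon
    refine hn p1 _ hp1 (Nat.eq_prime_pow_of_unique_prime_dvd hN0 ?_)
    intro d hd hdd
    exact hcon d hd hdd
  obtain ⟨p2, hp2, hd2, hne⟩ := hex
  have hcop : (p1 ^ (Subgroup.center H).index.factorization p1).Coprime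
      (p2 ^ (Subgroup.center H).index.factorization p2) :=
    Nat.Coprime.pow _ _ ((Nat.coprime_primes hp1 hp2).2 (fun e => hne e.symm))
  have hmul : p1 ^ (Subgroup.center H).index.factorization p1 *
      p2 ^ (Subgroup.center H).index.factorization p2 ≤ (Subgroup.center H).index :=
    Nat.le_of_dvd (Nat.pos_of_ne_zero hN0)
      (hcop.mul_dvd_of_dvd_of_dvd (Nat.ordProj_dvd _ _) (Nat.ordProj_dvd _ _))
  rcases le_total (p1 ^ (Subgroup.center H).index.factorization p1)
    (p2 ^ (Subgroup.center H).index.factorization p2) with h | h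
  · refine exists_small_aux hH p1 hp1 hd1 (le_trans ?_ hmul)
    rw [pow_two]
    exact Nat.mul_le_mul_left _ h
  · refine exists_small_aux hH p2 hp2 hd2 (le_trans ?_ hmul)
    rw [pow_two]
    exact Nat.mul_le_mul_right _ h

end Pool.Agent.Helper407.NC

namespace Pool.Agent.Helper407.NC

/-- Auxiliary statement. -/
theorem relIndex_pp {H : Type} [Group H] [Finite H] (hH : Group.IsNilpotent H) (r : ℕ)
    (hr : r.Prime) (hd : r ∣ (Subgroup.center H).index) :
    ∃ S : ℕ, 1 ≤ S ∧ (Subgroup.center H).relIndex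
      (Subgroup.centralizer {h : H | ¬ r ∣ orderOf h}) = r ^ S := by
  haveI : Fact r.Prime := ⟨hr⟩
  obtain ⟨R⟩ : Nonempty (Sylow r H) := inferInstance
  have h1 := relIndex_eq hH r hr R ∅
  have h2 : ({h : H | ¬ r ∣ orderOf h} ∪ Subtype.val '' (∅ : Set R)) = {h : H | ¬ r ∣ orderOf h} := by
    rw [Set.image_empty, Set.union_empty]
  have h3 : Subgroup.centralizer (∅ : Set R) = ⊤ := by
    ext x
    simp [Subgroup.mem_centralizer_iff]
  rw [h2, h3, Subgroup.relIndex_top_right] at h1
  obtain ⟨n, hn⟩ := (IsPGroup.iff_card (p := r) (G := R)).1 R.isPGroup'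
  have h4 : (Subgroup.center R).index ∣ r ^ n := by
    rw [← hn]
    exact Subgroup.index_dvd_card _
  obtain ⟨S, -, hS⟩ := (Nat.dvd_prime_pow hr).1 h4
  rw [hS] at h1
  refine ⟨S, ?_, h1⟩
  by_contra hlt
  have hS0 : S = 0 := by omega
  rw [hS0, pow_zero, Subgroup.relIndex_eq_one] at h1
  obtain ⟨y, -, hy, k, hk⟩ := exists_qelt r hr (⊤ : Subgroup H) le_top
    (by rw [Subgroup.relIndex_top_right]; exact hd)
  apply hy
  apply h1
  rw [Subgroup.mem_centralizer_iff]
  intro g hg
  apply commute_of_coprime hH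
  rw [hk]
  exact Nat.Coprime.pow_right k ((Nat.Prime.coprime_iff_not_dvd hr).2 hg).symm

end Pool.Agent.Helper407.NC

namespace Pool.Agent.Helper407.NC

/-- For nilpotent `H`: a small noncentral class forces `|G| = |H|`. -/
theorem nil_general {G H : Type} [Group G] [Group H] [Finite G] [Finite H]
    (e : ncGraph G ≃g ncGraph H) (hH : Group.IsNilpotent H) (x : H)
    (hx : x ∉ Subgroup.center H)
    (hc : (Subgroup.centralizer {x}).index ^ 2 ≤ (Subgroup.center H).index) :
    Nat.card G = Nat.card H ∧ Group.IsNilpotent G := by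
  have hcard : Nat.card G = Nat.card H := by
    have q1 := pre_card e (∅ : Set H)
    have e1 : pre e (∅ : Set H) = ⊤ := by simp [pre]
    have e2 : Subgroup.centralizer (∅ : Set H) = ⊤ := by simp
    have q0 := q1
    rw [e1, e2, Subgroup.card_top, Subgroup.card_top] at q0
    have hle : Subgroup.center H ≤ Subgroup.centralizer {x} := Subgroup.center_le_centralizer _
    have hmul : (Subgroup.center H).relIndex (Subgroup.centralizer {x}) *
        (Subgroup.centralizer {x}).index = (Subgroup.center H).index :=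
      Subgroup.relIndex_mul_index hle
    have h0 : (Subgroup.center H).relIndex (Subgroup.centralizer (∅ : Set H)) =
        (Subgroup.center H).index := by
      rw [e2, Subgroup.relIndex_top_right]
    have hN0 : (Subgroup.center H).index ≠ 0 := Subgroup.index_ne_zero_of_finite
    have hM0 : 0 < (Subgroup.center H).relIndex (Subgroup.centralizer {x}) := by
      rcases Nat.eq_zero_or_pos ((Subgroup.center H).relIndex (Subgroup.centralizer {x})) with
        h | h
      · rw [h, zero_mul] at hmul; exact absurd hmul.symm hN0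
      · exact h
    have hK : 1 < (Subgroup.centralizer {x}).index := by
      have hne : (Subgroup.centralizer {x}).index ≠ 0 := Subgroup.index_ne_zero_of_finite
      have hne1 : (Subgroup.centralizer {x}).index ≠ 1 := by
        intro h
        rw [Subgroup.index_eq_one] at h
        apply hx
        rw [Subgroup.mem_center_iff]
        intro g'
        have : g' ∈ Subgroup.centralizer {x} := by rw [h]; trivial
        rw [Subgroup.mem_centralizer_iff] at this
        exact (this x rfl).symm
      omega
    have hKM : (Subgroup.centralizer {x}).index ≤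
        (Subgroup.center H).relIndex (Subgroup.centralizer {x}) := by
      rw [← hmul, pow_two] at hc
      exact Nat.le_of_mul_le_mul_right hc (by omega)
    have hlt : (Subgroup.center H).relIndex (Subgroup.centralizer {x}) <
        (Subgroup.center H).relIndex (Subgroup.centralizer (∅ : Set H)) := by
      rw [h0, ← hmul]; nlinarith
    have hge : (Subgroup.center H).relIndex (Subgroup.centralizer (∅ : Set H)) ≤
        (Subgroup.center H).relIndex (Subgroup.centralizer {x}) ^ 2 := by
      rw [h0, ← hmul, pow_two]; exact Nat.mul_le_mul_left _ hKM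
    rcases lt_trichotomy (Nat.card (Subgroup.center G)) (Nat.card (Subgroup.center H)) with
      h | h | h
    · exact absurd hge (not_le.2 (pair_small e h ∅ {x} (Set.empty_subset _) hlt))
    · omega
    · exfalso
      have p2 := pre_card e ({x} : Set H)
      have g1 := card_mul_rel (Subgroup.center G) (pre e (∅ : Set H))
        (Subgroup.center_le_centralizer _)
      have g2 := card_mul_rel (Subgroup.center G) (pre e ({x} : Set H))
        (Subgroup.center_le_centralizer _)
      have c1 := card_mul_rel (Subgroup.center H) (Subgroup.centralizer (∅ : Set H))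
        (Subgroup.center_le_centralizer _)
      have c2 := card_mul_rel (Subgroup.center H) (Subgroup.centralizer {x}) hle
      have hμ : (Subgroup.center G).relIndex (pre e ({x} : Set H)) ∣
          (Subgroup.center G).relIndex (pre e (∅ : Set H)) :=
        ⟨_, (Subgroup.relIndex_mul_relIndex _ _ _ (Subgroup.center_le_centralizer _)
          (pre_anti e ∅ {x} (Set.empty_subset _))).symm⟩
      rw [h0, ← hmul] at c1
      rw [← g1, ← c1] at q1
      rw [← g2, ← c2] at p2
      refine coreB' _ _ _ _ _ _ Nat.card_pos h p2 q1 hμ hK hKM ?_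
      by_contra hnc
      obtain ⟨r, hr, hr1, hr2⟩ := Nat.Prime.not_coprime_iff_dvd.1 hnc
      have hrN : r ∣ (Subgroup.center H).index := by rw [← hmul]; exact hr2.mul_right _
      obtain ⟨S, hS1, hS⟩ := relIndex_pp hH r hr hrN
      have p3 := pre_card e {h : H | ¬ r ∣ orderOf h}
      have g3 := card_mul_rel (Subgroup.center G) (pre e {h : H | ¬ r ∣ orderOf h})
        (Subgroup.center_le_centralizer _)
      have c3 := card_mul_rel (Subgroup.center H)
        (Subgroup.centralizer {h : H | ¬ r ∣ orderOf h}) (Subgroup.center_le_centralizer _)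
      rw [hS] at c3
      rw [← g3, ← c3] at p3
      exact not_dvd_pre e h r S hr _ _ hS
        (fun v hv hv' => center_eq hH r hr v hv hv') (le_refl _)
        (by rw [hS]; exact Nat.one_lt_pow (by omega) hr.one_lt)
        (coreD r _ _ _ _ _ _ hr Nat.card_pos Nat.card_pos p2 p3 hr1 hr2
          (dvd_pow_self r (by omega)))
  exact ⟨hcard, nilpotent_of_card_eq e hH hcard⟩

/-- The case where `|H : Z(H)|` is not a prime power. -/
theorem nil_not_pp {G H : Type} [Group G] [Group H] [Finite G] [Finite H]
    (e : ncGraph G ≃g ncGraph H) (hH : Group.IsNilpotent H)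
    (hn : ∀ p S : ℕ, p.Prime → (Subgroup.center H).index ≠ p ^ S) :
    Nat.card G = Nat.card H ∧ Group.IsNilpotent G := by
  obtain ⟨x, hx, hc⟩ := exists_small_of_not_pp hH hn
  exact nil_general e hH x hx hc

end Pool.Agent.Helper407.NC
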